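import Pool.Agent.Helper94.SX.Xd
import Pool.Agent.Helper49.SH.Xd
import Pool.Agent.Helper75.SH.K6

/-!
PROJECT SH / ALLQ (MP_274814_nt), block X: from the cyclotomic data to the structure XD of
Helper49/SH/Xd.lean.
-/

set_option autoImplicit false

namespace Pool.Agent.Helper94.SX

open Complex Set NumberField Pool.Agent.Helper94.SH
open Pool.Agent.Helper49.SH (Iq em Ns KForm IsEps Eb dsum pb Np Pol jl jr Inv2 AlgAct)
open Pool.Agent.Helper34.LT (zt)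
open Pool.Agent.Helper34.LU (UU mem_UU)
open LTG (HS)

/-- the places: the units outside the first type -/
abbrev Pq (q : ℕ) (s1 : Finset ℕ) : Type := {u : ℕ // u ∈ UU q \ s1}

/-- place coordinates of a point of `W_C` -/
noncomputable def tp (q v : ℕ) (y : Iq q ⊕ Iq q → ℂ) : PC :=
  ((em q v (fun i => y (Sum.inl i)), em q v (fun i => y (Sum.inr i))),
    (em q (q - v) (fun i => y (Sum.inl i)), em q (q - v) (fun i => y (Sum.inr i))))

variable {K : Type} [Field K] [NumberField K]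

/-- cyclotomic data -/
structure Cyc (q : ℕ) (s1 s2 : Finset ℕ) (ξ1 ξ2 : Polynomial ℚ) (c : K →+* K)
    (s : Pq q s1 → K →+* ℂ) (κ : K) (ζ : K) (a kr : Pq q s1 → ℝ)
    (T : (MM (Pq q s1) → ℂ) ≃ₗ[ℂ] (Pq q s1 → PC))
    (R : Matrix (Fin 2) (Fin 2) K → Matrix (MM (Pq q s1)) (MM (Pq q s1)) ℚ)
    (S : Iq q ⊕ Iq q → MM (Pq q s1) → ℚ) (S' : MM (Pq q s1) → Iq q ⊕ Iq q → ℚ) : Prop where
  hs1 : HS q s1
  hs2 : HS q s2
  ari : Ari c s κ a kr T R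
  zeta : ∀ v, s v ζ = zt q ^ (v : ℕ)
  gen : ∀ x : K, ∃ P : Polynomial ℚ, x = Polynomial.aeval ζ P
  x1 : ∀ v, s v (Polynomial.aeval ζ ξ1) = I * (a v : ℂ)
  x2 : Polynomial.aeval ζ ξ2 = -κ * Polynomial.aeval ζ ξ1
  sgn : ∀ v : Pq q s1, (v : ℕ) ∈ s2 ↔ 0 < kr v
  coord : ∀ w v, T w v = tp q v (Pool.Agent.Helper49.SH.mv S w)
  inv1 : ∀ w, Pool.Agent.Helper49.SH.mv S (Pool.Agent.Helper49.SH.mv S' w) = w
  inv2 : ∀ w, Pool.Agent.Helper49.SH.mv S' (Pool.Agent.Helper49.SH.mv S w) = w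

section units

variable {q : ℕ} {s1 s2 : Finset ℕ}

theorem pq_mem (v : Pq q s1) : (v : ℕ) ∈ UU q ∧ (v : ℕ) ∉ s1 := by
  have := v.2
  rw [Finset.mem_sdiff] at this
  exact this

theorem uu_bounds (h3 : 3 ≤ q) {u : ℕ} (hu : u ∈ UU q) :
    1 ≤ u ∧ u < q ∧ Nat.Coprime u q ∧ q - u ∈ UU q ∧ q - (q - u) = u ∧ u ≠ q - u := by
  obtain ⟨⟨h1, h2⟩, h4⟩ := mem_UU.1 hu
  have h5 : u < q := by omega
  refine ⟨h1, h5, h4, mem_UU.2 ⟨⟨by omega, by omega⟩, (Nat.coprime_self_sub_left h5.le).2 h4⟩,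
    by omega, ?_⟩
  intro h6
  have h7 : q = 2 * u := by omega
  rw [h7, Nat.Coprime, Nat.gcd_mul_left_right] at h4
  omega

theorem hs_iff {s : Finset ℕ} (hs : HS q s) {u : ℕ} (hu : u ∈ UU q) : u ∈ s ↔ q - u ∉ s := by
  obtain ⟨⟨h1, h2⟩, h4⟩ := mem_UU.1 hu
  exact hs.half u h1 (by have := hs.three; omega) h4

theorem hs_uu {s : Finset ℕ} (hs : HS q s) {u : ℕ} (hu : u ∈ s) : u ∈ UU q := by
  obtain ⟨h1, h2, h3⟩ := hs.mem u hu
  exact mem_UU.2 ⟨⟨h1, by omega⟩, h3⟩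

/-- every unit is `v` or `q - v` for a place `v` -/
theorem place_cases (hs : HS q s1) {u : ℕ} (hu : u ∈ UU q) :
    (∃ v : Pq q s1, u = v) ∨ ∃ v : Pq q s1, u = q - v := by
  by_cases h : u ∈ s1
  · right
    obtain ⟨h1, h2, h3, h4, h5, h6⟩ := uu_bounds hs.three hu
    refine ⟨⟨q - u, Finset.mem_sdiff.2 ⟨h4, (hs_iff hs hu).1 h⟩⟩, ?_⟩
    change u = q - (q - u)
    exact h5.symm
  · left
    exact ⟨⟨u, Finset.mem_sdiff.2 ⟨hu, h⟩⟩, rfl⟩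

end units

variable {q : ℕ} {s1 s2 : Finset ℕ} {ξ1 ξ2 : Polynomial ℚ} {c : K →+* K}
  {s : Pq q s1 → K →+* ℂ} {κ : K} {ζ : K} {a kr : Pq q s1 → ℝ}
  {T : (MM (Pq q s1) → ℂ) ≃ₗ[ℂ] (Pq q s1 → PC)}
  {R : Matrix (Fin 2) (Fin 2) K → Matrix (MM (Pq q s1)) (MM (Pq q s1)) ℚ}
  {S : Iq q ⊕ Iq q → MM (Pq q s1) → ℚ} {S' : MM (Pq q s1) → Iq q ⊕ Iq q → ℚ}

/-- place coordinates determine the point -/
theorem Cyc.ext (h : Cyc q s1 s2 ξ1 ξ2 c s κ ζ a kr T R S S') {y y' : Iq q ⊕ Iq q → ℂ}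
    (hy : ∀ v : Pq q s1, tp q v y = tp q v y') : y = y' := by
  have h1 : Pool.Agent.Helper49.SH.mv S' y = Pool.Agent.Helper49.SH.mv S' y' := by
    refine T.injective (funext fun v => ?_)
    rw [h.coord, h.coord, h.inv1, h.inv1, hy]
  rw [← h.inv1 y, h1, h.inv1]

/-- composition of rational maps -/
def mc {α β γ : Type} [Fintype β] (A : α → β → ℚ) (B : β → γ → ℚ) : α → γ → ℚ :=
  fun i k => ∑ j, A i j * B j k

theorem mv_mc {α β γ : Type} [Fintype α] [Fintype β] [Fintype γ] (A : α → β → ℚ) (B : β → γ → ℚ)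
    (w : γ → ℂ) : Pool.Agent.Helper49.SH.mv (mc A B) w =
      Pool.Agent.Helper49.SH.mv A (Pool.Agent.Helper49.SH.mv B w) := by
  funext i
  simp only [Pool.Agent.Helper49.SH.mv, mc]
  push_cast
  simp only [Finset.sum_mul, Finset.mul_sum, mul_assoc]
  rw [Finset.sum_comm]

/-- the rational matrix of `M ∈ M_2(K)` in the coordinates `Iq q ⊕ Iq q` -/
noncomputable def QM (R : Matrix (Fin 2) (Fin 2) K → Matrix (MM (Pq q s1)) (MM (Pq q s1)) ℚ)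
    (S : Iq q ⊕ Iq q → MM (Pq q s1) → ℚ) (S' : MM (Pq q s1) → Iq q ⊕ Iq q → ℚ)
    (M : Matrix (Fin 2) (Fin 2) K) : Iq q ⊕ Iq q → Iq q ⊕ Iq q → ℚ :=
  mc S (mc (fun i j => R M i j) S')

theorem mv_QM (M : Matrix (Fin 2) (Fin 2) K) (y : Iq q ⊕ Iq q → ℂ) :
    Pool.Agent.Helper49.SH.mv (QM R S S' M) y = Pool.Agent.Helper49.SH.mv S
      (Pool.Agent.Helper16.SH.mQ (R M) (Pool.Agent.Helper49.SH.mv S' y)) := by
  rw [QM, mv_mc, mv_mc]
  rfl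

theorem Cyc.tp_QM (h : Cyc q s1 s2 ξ1 ξ2 c s κ ζ a kr T R S S') (M : Matrix (Fin 2) (Fin 2) K)
    (y : Iq q ⊕ Iq q → ℂ) (v : Pq q s1) :
    tp q v (Pool.Agent.Helper49.SH.mv (QM R S S' M) y) = a1 (M.map (s v)) (tp q v y) := by
  rw [mv_QM, ← h.coord, h.ari.act]
  change a1 (M.map (s v)) (T (Pool.Agent.Helper49.SH.mv S' y) v) = _
  rw [h.coord, h.inv1]

theorem Cyc.QM_mul (h : Cyc q s1 s2 ξ1 ξ2 c s κ ζ a kr T R S S') (M N : Matrix (Fin 2) (Fin 2) K)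
    (y : Iq q ⊕ Iq q → ℂ) :
    Pool.Agent.Helper49.SH.mv (QM R S S' (M * N)) y = Pool.Agent.Helper49.SH.mv (QM R S S' M)
      (Pool.Agent.Helper49.SH.mv (QM R S S' N) y) := by
  refine h.ext fun v => ?_
  rw [h.tp_QM, h.tp_QM, h.tp_QM, ← a1_mul, Matrix.map_mul]

theorem Cyc.QM_one (h : Cyc q s1 s2 ξ1 ξ2 c s κ ζ a kr T R S S') (y : Iq q ⊕ Iq q → ℂ) :
    Pool.Agent.Helper49.SH.mv (QM R S S' 1) y = y := by
  refine h.ext fun v => ?_
  rw [h.tp_QM, Matrix.map_one _ (map_zero _) (map_one _), a1_one]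

theorem Cyc.QM_inv (h : Cyc q s1 s2 ξ1 ξ2 c s κ ζ a kr T R S S') {M N : Matrix (Fin 2) (Fin 2) K}
    (hMN : M * N = 1) : Inv2 (QM R S S' M) (QM R S S' N) := by
  have hNM : N * M = 1 := mul_eq_one_comm.1 hMN
  exact ⟨fun w => by rw [← h.QM_mul, hMN, h.QM_one], fun w => by rw [← h.QM_mul, hNM, h.QM_one]⟩

/-! ### the form in place coordinates -/

theorem em_conj [NeZero q] {u : ℕ} (hu : u ≤ q) (w : Iq q → ℂ) :
    (starRingEnd ℂ) (em q u w) = em q (q - u) (Pool.Agent.Helper49.SH.cj w) := by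
  simp only [Pool.Agent.Helper49.SH.em, map_sum, map_mul, Pool.Agent.Helper49.SH.cj]
  refine Finset.sum_congr rfl fun i _ => ?_
  rw [pow_mul, pow_mul, ← Pool.Agent.Helper75.SH.zt_conj q hu, map_pow]

theorem Eb_dsum (E E' : Iq q → Iq q → ℚ) (y y' : Iq q ⊕ Iq q → ℂ) :
    Eb (dsum E E') y y' = Eb E (fun i => y (Sum.inl i)) (fun i => y' (Sum.inl i)) +
      Eb E' (fun i => y (Sum.inr i)) (fun i => y' (Sum.inr i)) := by
  simp only [Eb, Fintype.sum_sum_type, dsum]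
  simp

/-- sum over the units as a sum over the places -/
theorem sum_units (hs : HS q s1) (f : ℕ → ℂ) :
    ∑ u ∈ UU q, f u = ∑ v : Pq q s1, (f v + f (q - v)) := by
  have hsub : s1 ⊆ UU q := fun u hu => hs_uu hs hu
  rw [← Finset.sum_sdiff hsub, Finset.sum_add_distrib]
  congr 1
  · exact (Finset.sum_coe_sort (UU q \ s1) f).symm
  · symm
    refine Finset.sum_bij (fun (v : Pq q s1) _ => q - (v : ℕ)) ?_ ?_ ?_ ?_
    · intro v _
      obtain ⟨h1, h2⟩ := pq_mem v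
      obtain ⟨h3, h4, h5, h6, h7, h8⟩ := uu_bounds hs.three h1
      by_contra h9
      exact h2 ((hs_iff hs h1).2 h9)
    · intro v _ w _ h
      obtain ⟨h1, h2⟩ := pq_mem v
      obtain ⟨h1', h2'⟩ := pq_mem w
      have h3 := (uu_bounds hs.three h1).2.1
      have h3' := (uu_bounds hs.three h1').2.1
      refine Subtype.ext ?_
      change q - (v : ℕ) = q - (w : ℕ) at h
      omega
    · intro u hu
      have h1 := hsub hu
      obtain ⟨h3, h4, h5, h6, h7, h8⟩ := uu_bounds hs.three h1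
      refine ⟨⟨q - u, Finset.mem_sdiff.2 ⟨h6, (hs_iff hs h1).1 hu⟩⟩, Finset.mem_univ _, ?_⟩
      exact h7
    · intro v _
      rfl

end Pool.Agent.Helper94.SX
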