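import Pool.Agent.Helper94.SX.Xh
import Pool.Agent.Helper75.SH.K9

/-!
PROJECT SH / ALLQ (MP_274814_nt), block X: the main statement XMain.
-/

set_option autoImplicit false

namespace Pool.Agent.Helper94.SX

/-- **Block X.** -/
theorem xmain : Pool.Agent.Helper49.SH.XMain := by
  intro q s1 s2 t1 t2 ξ1 ξ2 E1 E2 hs1 hs2 ht1 ht2 hk1 hk2 hp1 hp2 _ hne hi hu
  haveI : NeZero q := ⟨by have := hs1.three; omega⟩
  obtain ⟨κ, a, kr, T, R, S, S', h⟩ := Pool.Agent.Helper75.SH.exists_Cyc q s1 s2 ξ1 ξ2 E1 E2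
    hs1 hs2 hk1 hk2 hp1 hp2
  exact h.xd hk1 hk2 hne ht1 ht2 hi hu

end Pool.Agent.Helper94.SX
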