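import Pool.Agent.Helper94.SX.Xb
import Pool.Agent.Helper96.SH.Ce

/-!
PROJECT SH / ALLQ (MP_274814_nt), block X: the family over the product of discs, in a coordinate system
`T : C^(mu + mu) -> prod_v (C^2 x C^2)` which is symplectic and compatible with complex conjugation.
-/

set_option autoImplicit false

namespace Pool.Agent.Helper94.SX

open Complex Set Pool.Agent.Helper94.SH Pool.Agent.Helper16.SH

variable {ι : Type} [Fintype ι] [DecidableEq ι]

/-- the form -/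
noncomputable def EP (a κ : ι → ℝ) (u w : ι → PC) : ℂ := ∑ v, e1 (a v) (κ v) (u v) (w v)

/-- complex conjugation -/
noncomputable def CP (u : ι → PC) : ι → PC := fun v => c1 (u v)

/-- matrices act -/
noncomputable def AP (M : ι → Matrix (Fin 2) (Fin 2) ℂ) (u : ι → PC) : ι → PC := fun v => a1 (M v) (u v)

/-- indefinite places -/
abbrev Pl (κ : ι → ℝ) : Type := {v : ι // 0 < κ v}

open Classical in
/-- extension of the coordinates by `0` -/
noncomputable def xt {κ : ι → ℝ} (x : Pl κ → ℂ) (v : ι) : ℂ := if h : 0 < κ v then x ⟨v, h⟩ else 0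

/-- the product of the discs -/
def XX (κ : ι → ℝ) : Set (Pl κ → ℂ) := {x | ∀ v : Pl κ, κ v * ‖x v‖ ^ 2 < 1}

omit [Fintype ι] [DecidableEq ι] in
theorem xt_pl {κ : ι → ℝ} (x : Pl κ → ℂ) (v : Pl κ) : xt x v = x v := by
  unfold xt
  rw [dif_pos v.2]

omit [Fintype ι] [DecidableEq ι] in
theorem xt_lt {κ : ι → ℝ} {x : Pl κ → ℂ} (hx : x ∈ XX κ) (v : ι) (h : 0 < κ v) :
    κ v * ‖xt x v‖ ^ 2 < 1 := by
  unfold xt
  rw [dif_pos h]
  exact hx ⟨v, h⟩

theorem XX_open (κ : ι → ℝ) : IsOpen (XX κ) := by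
  have h : XX κ = ⋂ v : Pl κ, {x | κ v * ‖x v‖ ^ 2 < 1} := by
    ext x
    simp [XX]
  rw [h]
  exact isOpen_iInter_of_finite fun v => isOpen_lt (by fun_prop) continuous_const

theorem XX_convex (κ : ι → ℝ) : Convex ℝ (XX κ) := by
  have h : XX κ = Set.univ.pi fun v : Pl κ => Metric.ball (0 : ℂ) (Real.sqrt (κ v))⁻¹ := by
    ext x
    simp only [XX, Set.mem_ofPred_eq, Set.mem_univ_pi, mem_ball_zero_iff]
    refine forall_congr' fun v => ?_
    have h1 : 0 < Real.sqrt (κ v) := Real.sqrt_pos.2 v.2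
    have h2 : κ v * ‖x v‖ ^ 2 = (Real.sqrt (κ v) * ‖x v‖) ^ 2 := by
      rw [mul_pow, Real.sq_sqrt v.2.le]
    rw [h2, sq_lt_one_iff₀ (by positivity), ← lt_div_iff₀' h1, one_div]
  rw [h]
  exact convex_pi fun v _ => convex_ball _ _

variable {a κ : ι → ℝ}

/-- a coordinate system -/
structure Coo (a κ : ι → ℝ) (T : (((ι × Fin 2) ⊕ (ι × Fin 2)) → ℂ) ≃ₗ[ℂ] (ι → PC)) : Prop where
  form : ∀ w w', E0 w w' = EP a κ (T w) (T w')
  conj : ∀ w, T (cj w) = CP (T w)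

variable {T : (((ι × Fin 2) ⊕ (ι × Fin 2)) → ℂ) ≃ₗ[ℂ] (ι → PC)}

/-- frame vectors in place coordinates -/
noncomputable def fp (κ : ι → ℝ) (x : Pl κ → ℂ) (k : ι × Fin 2) : ι → PC :=
  Pi.single k.1 (f1 (κ k.1) (xt x k.1) k.2)

/-- frame vectors -/
noncomputable def fr (T : (((ι × Fin 2) ⊕ (ι × Fin 2)) → ℂ) ≃ₗ[ℂ] (ι → PC)) (κ : ι → ℝ)
    (x : Pl κ → ℂ) (k : ι × Fin 2) : ((ι × Fin 2) ⊕ (ι × Fin 2)) → ℂ := T.symm (fp κ x k)

/-- first half of the frame -/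
noncomputable def fA (T : (((ι × Fin 2) ⊕ (ι × Fin 2)) → ℂ) ≃ₗ[ℂ] (ι → PC)) (κ : ι → ℝ)
    (x : Pl κ → ℂ) : Matrix (ι × Fin 2) (ι × Fin 2) ℂ := Matrix.of fun i k => fr T κ x k (Sum.inl i)

/-- second half of the frame -/
noncomputable def fB (T : (((ι × Fin 2) ⊕ (ι × Fin 2)) → ℂ) ≃ₗ[ℂ] (ι → PC)) (κ : ι → ℝ)
    (x : Pl κ → ℂ) : Matrix (ι × Fin 2) (ι × Fin 2) ℂ := Matrix.of fun i k => fr T κ x k (Sum.inr i)

theorem fv_eq (x : Pl κ → ℂ) (c : ι × Fin 2 → ℂ) :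
    fv (fA T κ x) (fB T κ x) c = ∑ k, c k • fr T κ x k := by
  funext i
  rcases i with i | i
  · simp only [fv, Sum.elim_inl, Matrix.mulVec, dotProduct, fA, Matrix.of_apply, Finset.sum_apply,
      Pi.smul_apply, smul_eq_mul, mul_comm]
  · simp only [fv, Sum.elim_inr, Matrix.mulVec, dotProduct, fB, Matrix.of_apply, Finset.sum_apply,
      Pi.smul_apply, smul_eq_mul, mul_comm]

theorem T_fv (x : Pl κ → ℂ) (c : ι × Fin 2 → ℂ) (v : ι) :
    T (fv (fA T κ x) (fB T κ x) c) v =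
      c (v, 0) • f1 (κ v) (xt x v) 0 + c (v, 1) • f1 (κ v) (xt x v) 1 := by
  rw [fv_eq, map_sum, Finset.sum_apply, Fintype.sum_prod_type]
  simp only [map_smul, fr, LinearEquiv.apply_symm_apply, fp, Pi.smul_apply, Fin.sum_univ_two]
  rw [Finset.sum_eq_single v]
  · simp
  · intro v' _ hv'
    rw [Pi.single_eq_of_ne (Ne.symm hv'), Pi.single_eq_of_ne (Ne.symm hv')]
    simp
  · simp

theorem n1_fp (x : Pl κ → ℂ) (k : ι × Fin 2) (v : ι) : n1 (κ v) (xt x v) (fp κ x k v) := by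
  rw [n1_iff]
  by_cases h : v = k.1
  · subst h
    unfold fp
    rw [Pi.single_eq_same]
    obtain ⟨v, j⟩ := k
    fin_cases j
    · exact ⟨![1, 0], by simp⟩
    · exact ⟨![0, 1], by simp⟩
  · exact ⟨0, by simp [fp, h]⟩

theorem f1_indep (κ : ℝ) (z : ℂ) (c d : ℂ) (h : c • f1 κ z 0 + d • f1 κ z 1 = 0) :
    c = 0 ∧ d = 0 := by
  unfold f1 at h
  by_cases hk : 0 < κ
  · simp only [hk, if_true, one_ne_zero, if_false] at h
    have h1 := congrArg (fun u : PC => u.1.1) h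
    have h2 := congrArg (fun u : PC => u.2.2) h
    simp at h1 h2
    exact ⟨h1, h2⟩
  · simp only [hk, if_true, one_ne_zero, if_false] at h
    have h1 := congrArg (fun u : PC => u.1.1) h
    have h2 := congrArg (fun u : PC => u.1.2) h
    simp at h1 h2
    exact ⟨h1, h2⟩

theorem frm (ha : ∀ v, 0 < a v) (hκ : ∀ v, κ v ≠ 0) (hT : Coo a κ T) {x : Pl κ → ℂ}
    (hx : x ∈ XX κ) : Frm (fA T κ x) (fB T κ x) where
  iso := by
    ext j k
    have h1 : E0 (fr T κ x j) (fr T κ x k) = 0 := by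
      rw [hT.form, EP]
      refine Finset.sum_eq_zero fun v _ => ?_
      simp only [fr, LinearEquiv.apply_symm_apply]
      exact e1_iso (n1_fp x j v) (n1_fp x k v)
    simp only [Matrix.mul_apply, Matrix.transpose_apply, fA, fB, Matrix.of_apply]
    rw [E0, Finset.sum_sub_distrib, sub_eq_zero] at h1
    exact h1
  pos := by
    intro c hc
    rw [hT.form, hT.conj, EP, Finset.mul_sum, Complex.re_sum]
    have hn : ∀ v, n1 (κ v) (xt x v) (T (fv (fA T κ x) (fB T κ x) c) v) := by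
      intro v
      rw [n1_iff, T_fv]
      exact ⟨![c (v, 0), c (v, 1)], by simp⟩
    have hpos : ∀ v, T (fv (fA T κ x) (fB T κ x) c) v ≠ 0 →
        0 < (-I * e1 (a v) (κ v) (T (fv (fA T κ x) (fB T κ x) c) v)
          (CP (T (fv (fA T κ x) (fB T κ x) c)) v)).re :=
      fun v hv => e1_pos (ha v) (hκ v) (xt_lt hx v) (hn v) hv
    have hnn : ∀ v ∈ Finset.univ, 0 ≤ (-I * e1 (a v) (κ v) (T (fv (fA T κ x) (fB T κ x) c) v)
          (CP (T (fv (fA T κ x) (fB T κ x) c)) v)).re := by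
      intro v _
      by_cases hv : T (fv (fA T κ x) (fB T κ x) c) v = 0
      · rw [hv]
        simp [e1]
      · exact (hpos v hv).le
    obtain ⟨k, hk⟩ := Function.ne_iff.1 hc
    refine Finset.sum_pos' hnn ⟨k.1, Finset.mem_univ _, hpos k.1 ?_⟩
    intro h0
    rw [T_fv] at h0
    obtain ⟨h1, h2⟩ := f1_indep _ _ _ _ h0
    refine hk ?_
    obtain ⟨v, j⟩ := k
    fin_cases j
    · exact h1
    · exact h2

/-- the Siegel matrix of the family -/
noncomputable def ZX (T : (((ι × Fin 2) ⊕ (ι × Fin 2)) → ℂ) ≃ₗ[ℂ] (ι → PC)) (κ : ι → ℝ)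
    (x : Pl κ → ℂ) : Matrix (ι × Fin 2) (ι × Fin 2) ℂ := ZZ (fA T κ x) (fB T κ x)

theorem mem_NX (ha : ∀ v, 0 < a v) (hκ : ∀ v, κ v ≠ 0) (hT : Coo a κ T) {x : Pl κ → ℂ}
    (hx : x ∈ XX κ) (w : ((ι × Fin 2) ⊕ (ι × Fin 2)) → ℂ) :
    w ∈ Pool.Agent.Helper96.SH.NZ (ZX T κ x) ↔ ∀ v, n1 (κ v) (xt x v) (T w v) := by
  have h1 : w ∈ Pool.Agent.Helper96.SH.NZ (ZX T κ x) ↔ w ∈ NZ (ZX T κ x) := by
    rw [Pool.Agent.Helper96.SH.mem_NZ, mem_NZ, funext_iff]
    rfl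
  rw [h1, ZX, (frm ha hκ hT hx).mem_iff]
  constructor
  · rintro ⟨c, rfl⟩ v
    rw [n1_iff, T_fv]
    exact ⟨![c (v, 0), c (v, 1)], by simp⟩
  · intro h
    choose c hc using fun v => (n1_iff _ _ _).1 (h v)
    refine ⟨fun k => c k.1 k.2, ?_⟩
    refine T.injective (funext fun v => ?_)
    rw [T_fv, hc]

/-! ### holomorphy and immersion -/

omit [DecidableEq ι] in
theorem diff_xt (v : ι) : Differentiable ℂ fun x : Pl κ → ℂ => xt x v := by
  unfold xt
  by_cases h : 0 < κ v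
  · simp only [h, dif_pos]
    fun_prop
  · simp only [h, dif_neg, not_false_eq_true]
    fun_prop

/-- derivative of the frame vector at one place -/
noncomputable def g1 (κ : ℝ) (t : ℂ) (k : Fin 2) : PC :=
  if 0 < κ then (if k = 0 then ((0, t), (0, 0)) else ((0, 0), (κ * t, 0))) else 0

theorem f1_add (κ : ℝ) (z t : ℂ) (k : Fin 2) : f1 κ (z + t) k = f1 κ z k + g1 κ t k := by
  unfold f1 g1
  by_cases h : 0 < κ
  · by_cases hk : k = 0
    · simp [h, hk]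
    · simp [h, hk, mul_add]
  · simp [h]

theorem g1_smul (κ : ℝ) (c t : ℂ) (k : Fin 2) : g1 κ (c * t) k = c • g1 κ t k := by
  unfold g1
  by_cases h : 0 < κ
  · by_cases hk : k = 0
    · simp [h, hk]
    · simp [h, hk]
      ring
  · simp [h]

theorem xt_add (x y : Pl κ → ℂ) (v : ι) : xt (x + y) v = xt x v + xt y v := by
  unfold xt
  by_cases h : 0 < κ v
  · simp [h]
  · simp [h]

theorem xt_smul (c : ℂ) (y : Pl κ → ℂ) (v : ι) : xt (c • y) v = c * xt y v := by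
  unfold xt
  by_cases h : 0 < κ v
  · simp [h]
  · simp [h]

/-- linear part of the frame -/
noncomputable def gL (T : (((ι × Fin 2) ⊕ (ι × Fin 2)) → ℂ) ≃ₗ[ℂ] (ι → PC)) (κ : ι → ℝ)
    (k : ι × Fin 2) : (Pl κ → ℂ) →ₗ[ℂ] (((ι × Fin 2) ⊕ (ι × Fin 2)) → ℂ) where
  toFun t := T.symm (Pi.single k.1 (g1 (κ k.1) (xt t k.1) k.2))
  map_add' s t := by
    rw [← map_add, xt_add]
    congr 1
    rw [← Pi.single_add]
    congr 1
    have h1 := f1_add (κ k.1) (xt s k.1) (xt t k.1) k.2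
    have h2 := f1_add (κ k.1) 0 (xt s k.1) k.2
    have h3 := f1_add (κ k.1) 0 (xt s k.1 + xt t k.1) k.2
    rw [zero_add] at h2 h3
    rw [h1, h2, add_assoc] at h3
    exact (add_left_cancel h3).symm
  map_smul' c t := by
    rw [xt_smul, g1_smul, Pi.single_smul, map_smul]
    rfl

theorem fr_eq (x : Pl κ → ℂ) (k : ι × Fin 2) : fr T κ x k = fr T κ 0 k + gL T κ k x := by
  have h1 : fp κ x k = fp κ 0 k + Pi.single k.1 (g1 (κ k.1) (xt x k.1) k.2) := by
    unfold fp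
    rw [← Pi.single_add, ← f1_add]
    have h2 : xt (0 : Pl κ → ℂ) k.1 = 0 := by
      unfold xt
      split_ifs <;> rfl
    rw [h2, zero_add]
  unfold fr
  rw [h1, map_add]
  rfl

theorem diff_fr (k : ι × Fin 2) : Differentiable ℂ fun x => fr T κ x k := by
  have h1 : (fun x => fr T κ x k) = fun x => fr T κ 0 k + (gL T κ k).toContinuousLinearMap x :=
    funext fun x => fr_eq x k
  rw [h1]
  exact (differentiable_const _).add (gL T κ k).toContinuousLinearMap.differentiable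

theorem fderiv_fr (k : ι × Fin 2) (x t : Pl κ → ℂ) :
    fderiv ℂ (fun x => fr T κ x k) x t = gL T κ k t := by
  have h1 : (fun x => fr T κ x k) = fun x => fr T κ 0 k + (gL T κ k).toContinuousLinearMap x :=
    funext fun x => fr_eq x k
  rw [h1, fderiv_const_add]
  rw [ContinuousLinearMap.fderiv]
  rfl

theorem ZX_hol (ha : ∀ v, 0 < a v) (hκ : ∀ v, κ v ≠ 0) (hT : Coo a κ T) (i j : ι × Fin 2) :
    DifferentiableOn ℂ (fun x => ZX T κ x i j) (XX κ) := by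
  refine ZZ_hol (fun i j => ?_) (fun i j => ?_) (fun x hx => (frm ha hκ hT hx).det_ne) i j
  · have h1 := (differentiable_pi.1 (diff_fr (T := T) (κ := κ) j) (Sum.inl i)).differentiableOn
      (s := XX κ)
    exact h1
  · have h1 := (differentiable_pi.1 (diff_fr (T := T) (κ := κ) j) (Sum.inr i)).differentiableOn
      (s := XX κ)
    exact h1

theorem tfam (ha : ∀ v, 0 < a v) (hκ : ∀ v, κ v ≠ 0) (hT : Coo a κ T) :
    TFam (Pool.Agent.Helper96.SH.E0 (ι × Fin 2)) Pool.Agent.Helper96.SH.ep0 (XX κ)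
      (fun x => Pool.Agent.Helper96.SH.NZ (ZX T κ x))
      fun x w => Pool.Agent.Helper96.SH.GF (ZX T κ x) w :=
  Pool.Agent.Helper96.SH.tfam_FF (XX_open κ) (XX_convex κ).isPreconnected (ZX_hol ha hκ hT)
    fun _ hx => (frm ha hκ hT hx).sieg

theorem En_eq (w w' : ((ι × Fin 2) ⊕ (ι × Fin 2)) → ℂ) :
    En (Pool.Agent.Helper96.SH.E0 (ι × Fin 2)) w w' = E0 w w' := by
  rw [Pool.Agent.Helper96.SH.En_E0]
  simp only [Pool.Agent.Helper96.SH.EE, Pool.Agent.Helper96.SH.dt, E0, Finset.sum_sub_distrib]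

theorem fr_mem (ha : ∀ v, 0 < a v) (hκ : ∀ v, κ v ≠ 0) (hT : Coo a κ T) {x : Pl κ → ℂ}
    (hx : x ∈ XX κ) (k : ι × Fin 2) :
    fr T κ x k ∈ Pool.Agent.Helper96.SH.NZ (ZX T κ x) := by
  rw [mem_NX ha hκ hT hx]
  intro v
  rw [fr, LinearEquiv.apply_symm_apply]
  exact n1_fp x k v

theorem imm (ha : ∀ v, 0 < a v) (hκ : ∀ v, κ v ≠ 0) (hT : Coo a κ T) {x : Pl κ → ℂ}
    (hx : x ∈ XX κ) (t : Pl κ → ℂ)
    (h : ∀ k, ∀ u ∈ Pool.Agent.Helper96.SH.NZ (ZX T κ x),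
      En (Pool.Agent.Helper96.SH.E0 (ι × Fin 2)) u (fderiv ℂ (fun x => fr T κ x k) x t) = 0) :
    t = 0 := by
  funext v
  have h1 := h (v, 0) _ (fr_mem ha hκ hT hx (v, 1))
  rw [En_eq, fderiv_fr, hT.form, EP, Finset.sum_eq_single (v : ι)] at h1
  · change e1 _ _ ((T (fr T κ x (v, 1))) v) ((T (T.symm (Pi.single (v : ι)
      (g1 (κ v) (xt t v) 0)))) v) = 0 at h1
    rw [fr, LinearEquiv.apply_symm_apply, LinearEquiv.apply_symm_apply, fp, Pi.single_eq_same,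
      Pi.single_eq_same, xt_pl t] at h1
    rw [g1, if_pos v.2, if_pos rfl] at h1
    exact e1_imm (ha v) v.2 (xt x v) (t v) h1
  · intro v' _ hv'
    change e1 _ _ _ ((T (T.symm (Pi.single (v : ι) (g1 (κ v) (xt t v) 0)))) v') = 0
    rw [LinearEquiv.apply_symm_apply, Pi.single_eq_of_ne hv']
    simp [e1]
  · intro h2
    exact absurd (Finset.mem_univ _) h2

/-! ### actions -/

/-- the action on the product of discs -/
noncomputable def mx (M : ι → Matrix (Fin 2) (Fin 2) ℂ) (x : Pl κ → ℂ) : Pl κ → ℂ :=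
  fun v => mob (M v) (x v)

theorem EP_act {M : ι → Matrix (Fin 2) (Fin 2) ℂ} (hM : ∀ v, IsU (κ v) (M v)) (u w : ι → PC) :
    EP a κ (AP M u) (AP M w) = EP a κ u w :=
  Finset.sum_congr rfl fun v _ => e1_act (hM v) (u v) (w v)

theorem mx_mem {M : ι → Matrix (Fin 2) (Fin 2) ℂ} (hM : ∀ v, IsU (κ v) (M v)) {x : Pl κ → ℂ}
    (hx : x ∈ XX κ) : mx M x ∈ XX κ :=
  fun v => (hM v).mob_mem v.2 (hx v)

theorem mem_NX_act (ha : ∀ v, 0 < a v) (hκ : ∀ v, κ v ≠ 0) (hT : Coo a κ T)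
    {M : ι → Matrix (Fin 2) (Fin 2) ℂ} (hM : ∀ v, IsU (κ v) (M v)) (hu : ∀ v, IsUnit (M v).det)
    {x : Pl κ → ℂ} (hx : x ∈ XX κ) (w w' : ((ι × Fin 2) ⊕ (ι × Fin 2)) → ℂ)
    (hw : T w' = AP M (T w)) :
    w ∈ Pool.Agent.Helper96.SH.NZ (ZX T κ x) ↔
      w' ∈ Pool.Agent.Helper96.SH.NZ (ZX T κ (mx M x)) := by
  rw [mem_NX ha hκ hT hx, mem_NX ha hκ hT (mx_mem hM hx), hw]
  refine forall_congr' fun v => ?_
  have h1 := n1_act_iff (hM v) (hu v) (xt_lt hx v) (T w v)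
  rw [h1]
  by_cases h : 0 < κ v
  · have h2 : xt (mx M x) v = mob (M v) (xt x v) := by
      rw [xt_pl _ ⟨v, h⟩, xt_pl _ ⟨v, h⟩]
      rfl
    rw [h2]
    rfl
  · constructor
    · intro h2
      exact ⟨fun h3 => absurd h3 h, h2.2⟩
    · intro h2
      exact ⟨fun h3 => absurd h3 h, h2.2⟩

theorem diff_mx {M : ι → Matrix (Fin 2) (Fin 2) ℂ} (hM : ∀ v, IsU (κ v) (M v)) :
    DifferentiableOn ℂ (mx M) (XX κ) := by
  intro x hx
  refine DifferentiableAt.differentiableWithinAt ?_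
  rw [differentiableAt_pi]
  intro v
  have h1 := (hasDerivAt_mob ((hM v).den_ne v.2 (hx v))).differentiableAt
  exact h1.comp x (by fun_prop : DifferentiableAt ℂ (fun x : Pl κ → ℂ => x v) x)

/-- at a fixed point with multipliers different from one the differential has no fixed vector -/
theorem fix_mx {M : ι → Matrix (Fin 2) (Fin 2) ℂ} {x : Pl κ → ℂ} {m : Pl κ → ℂ}
    (hm : ∀ v : Pl κ, HasDerivAt (mob (M v)) (m v) (x v)) (hm1 : ∀ v, m v ≠ 1) (t : Pl κ → ℂ)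
    (ht : fderiv ℂ (mx M) x t = t) : t = 0 := by
  have h1 : HasFDerivAt (mx (κ := κ) M) (ContinuousLinearMap.pi fun v =>
      (m v) • (ContinuousLinearMap.proj v : (Pl κ → ℂ) →L[ℂ] ℂ)) x := by
    rw [hasFDerivAt_pi]
    intro v
    have h2 := (hm v).hasFDerivAt.comp x
      (ContinuousLinearMap.proj v : (Pl κ → ℂ) →L[ℂ] ℂ).hasFDerivAt
    have h3 : (m v) • (ContinuousLinearMap.proj v : (Pl κ → ℂ) →L[ℂ] ℂ) =
        (ContinuousLinearMap.toSpanSingleton ℂ (m v)).comp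
          (ContinuousLinearMap.proj v : (Pl κ → ℂ) →L[ℂ] ℂ) := by
      refine ContinuousLinearMap.ext fun s => ?_
      simp [mul_comm]
    rw [h3]
    exact h2
  rw [h1.fderiv] at ht
  funext v
  have h3 := congrFun ht v
  simp only [ContinuousLinearMap.coe_pi', ContinuousLinearMap.smul_apply,
    ContinuousLinearMap.proj_apply, smul_eq_mul] at h3
  have h4 : (m v - 1) * t v = 0 := by linear_combination h3
  exact (mul_eq_zero.1 h4).resolve_left (sub_ne_zero.2 (hm1 v))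

end Pool.Agent.Helper94.SX
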