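import Pool.Agent.Helper94.SX.Xe
import Pool.Agent.Helper53.SH.Em

/-!
PROJECT SH / ALLQ (MP_274814_nt), block X: form, planes, dense orbit in the cyclotomic coordinates.
-/

set_option autoImplicit false

namespace Pool.Agent.Helper94.SX

open Complex Set NumberField Pool.Agent.Helper94.SH
open Pool.Agent.Helper49.SH (Iq Ns KForm IsEps Eb dsum pb Np Pol jl jr Inv2 AlgAct)
open Pool.Agent.Helper34.LT (zt)
open Pool.Agent.Helper34.LU (UU mem_UU)
open LTG (HS)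

variable {K : Type} [Field K] [NumberField K]

variable {q : ℕ} {s1 s2 : Finset ℕ} {ξ1 ξ2 : Polynomial ℚ} {c : K →+* K}
  {s : Pq q s1 → K →+* ℂ} {κ : K} {ζ : K} {a kr : Pq q s1 → ℝ}
  {T : (MM (Pq q s1) → ℂ) ≃ₗ[ℂ] (Pq q s1 → PC)}
  {R : Matrix (Fin 2) (Fin 2) K → Matrix (MM (Pq q s1)) (MM (Pq q s1)) ℚ}
  {S : Iq q ⊕ Iq q → MM (Pq q s1) → ℚ} {S' : MM (Pq q s1) → Iq q ⊕ Iq q → ℚ}

/-! ### values of polynomials -/

theorem Cyc.val (h : Cyc q s1 s2 ξ1 ξ2 c s κ ζ a kr T R S S') (P : Polynomial ℚ) (v : Pq q s1) :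
    Polynomial.aeval (zt q ^ (v : ℕ)) P = s v (Polynomial.aeval ζ P) := by
  have h1 := Polynomial.aeval_algHom_apply (RingHom.equivRatAlgHom K ℂ (s v)) ζ P
  have h2 : (RingHom.equivRatAlgHom K ℂ (s v)) ζ = zt q ^ (v : ℕ) := h.zeta v
  rw [h2] at h1
  exact h1

theorem val_conj [NeZero q] {u : ℕ} (hu : u ≤ q) (P : Polynomial ℚ) :
    Polynomial.aeval (zt q ^ (q - u)) P = cc (Polynomial.aeval (zt q ^ u) P) := by
  rw [← Pool.Agent.Helper75.SH.zt_conj q hu]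
  exact Polynomial.aeval_algHom_apply (RingHom.equivRatAlgHom ℂ ℂ cc) (zt q ^ u) P

theorem kform_sum [NeZero q] (hs1 : HS q s1) {ξ : Polynomial ℚ} {α : Pq q s1 → ℝ}
    (hξ : ∀ v : Pq q s1, Polynomial.aeval (zt q ^ (v : ℕ)) ξ = I * (α v : ℂ)) (w w' : Iq q → ℂ) :
    ∑ u ∈ UU q, Polynomial.aeval (zt q ^ u) ξ * Pool.Agent.Helper49.SH.em q u w *
        Pool.Agent.Helper49.SH.em q (q - u) w' =
      ∑ v : Pq q s1, I * (α v : ℂ) * (Pool.Agent.Helper49.SH.em q v w *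
        Pool.Agent.Helper49.SH.em q (q - v) w' - Pool.Agent.Helper49.SH.em q (q - v) w *
        Pool.Agent.Helper49.SH.em q v w') := by
  rw [sum_units hs1 (fun u => Polynomial.aeval (zt q ^ u) ξ * Pool.Agent.Helper49.SH.em q u w *
        Pool.Agent.Helper49.SH.em q (q - u) w')]
  refine Finset.sum_congr rfl fun v _ => ?_
  obtain ⟨h3, h4, h5, h6, h7, h8⟩ := uu_bounds hs1.three (pq_mem v).1
  rw [val_conj h4.le, hξ, h7]
  simp only [map_mul, Complex.conj_I, Complex.conj_ofReal]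
  ring

theorem Cyc.v2 (h : Cyc q s1 s2 ξ1 ξ2 c s κ ζ a kr T R S S') (v : Pq q s1) :
    Polynomial.aeval (zt q ^ (v : ℕ)) ξ2 = I * ((-(kr v * a v) : ℝ) : ℂ) := by
  rw [h.val, h.x2, map_mul, map_neg, h.ari.hkr, h.x1]
  push_cast
  ring

theorem Cyc.form [NeZero q] (h : Cyc q s1 s2 ξ1 ξ2 c s κ ζ a kr T R S S') {E1 E2 : Iq q → Iq q → ℚ}
    (hk1 : KForm q ξ1 E1) (hk2 : KForm q ξ2 E2) (y y' : Iq q ⊕ Iq q → ℂ) :
    Eb (dsum E1 E2) y y' = EP a kr (fun v => tp q v y) (fun v => tp q v y') := by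
  rw [Eb_dsum, hk1, hk2, kform_sum h.hs1 (α := a) (fun v => by rw [h.val, h.x1]),
    kform_sum h.hs1 (α := fun v => -(kr v * a v)) h.v2, EP, ← Finset.sum_add_distrib]
  refine Finset.sum_congr rfl fun v _ => ?_
  simp only [e1, tp]
  push_cast
  ring

theorem Cyc.form' [NeZero q] (h : Cyc q s1 s2 ξ1 ξ2 c s κ ζ a kr T R S S') {E1 E2 : Iq q → Iq q → ℚ}
    (hk1 : KForm q ξ1 E1) (hk2 : KForm q ξ2 E2) (w w' : MM (Pq q s1) → ℂ) :
    Eb (dsum E1 E2) (Pool.Agent.Helper49.SH.mv S w) (Pool.Agent.Helper49.SH.mv S w') =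
      Pool.Agent.Helper16.SH.En (Pool.Agent.Helper96.SH.E0 (Pq q s1 × Fin 2)) w w' := by
  rw [h.form hk1 hk2, En_eq, h.ari.coo.form]
  simp only [← h.coord]

/-! ### pull back -/

theorem Eb_pb' {ι ι' : Type} [Fintype ι] [Fintype ι'] (E : ι → ι → ℚ) (M : ι → ι' → ℚ)
    (w w' : ι' → ℂ) : Eb (pb E M) w w' = Eb E (Pool.Agent.Helper49.SH.mv M w)
      (Pool.Agent.Helper49.SH.mv M w') :=
  (Pool.Agent.Helper53.SH.Eb_pb E M w w')

theorem Eb_inj' {ι : Type} [Fintype ι] {E E' : ι → ι → ℚ} (h : ∀ w w', Eb E w w' = Eb E' w w') :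
    E = E' := by
  classical
  funext i j
  have h1 := h (Pi.single i 1) (Pi.single j 1)
  simp only [Eb, Pi.single_apply, mul_ite, mul_one, mul_zero, Finset.sum_ite_eq',
    Finset.mem_univ, if_true] at h1
  exact_mod_cast h1

theorem Cyc.pb_act [NeZero q] (h : Cyc q s1 s2 ξ1 ξ2 c s κ ζ a kr T R S S') {E1 E2 : Iq q → Iq q → ℚ}
    (hk1 : KForm q ξ1 E1) (hk2 : KForm q ξ2 E2) {M : Matrix (Fin 2) (Fin 2) K}
    (hM : ∀ v, IsU (kr v) (M.map (s v))) :
    pb (dsum E1 E2) (QM R S S' M) = dsum E1 E2 := by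
  refine Eb_inj' fun w w' => ?_
  rw [Eb_pb', h.form hk1 hk2, h.form hk1 hk2]
  refine Finset.sum_congr rfl fun v _ => ?_
  simp only [h.tp_QM, e1_act (hM v)]

/-! ### the planes -/

theorem tp_jl {u : ℕ} {ε : Iq q → ℂ} (hs1 : HS q s1) (hε : IsEps q u ε) (v : Pq q s1) :
    tp q v (jl ε) = (((if (v : ℕ) = u then 1 else 0), 0), ((if q - (v : ℕ) = u then 1 else 0), 0)) := by
  obtain ⟨h3, h4, h5, h6, h7, h8⟩ := uu_bounds hs1.three (pq_mem v).1
  have h1 : (fun i => (jl ε : Iq q ⊕ Iq q → ℂ) (Sum.inr i)) = 0 := rfl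
  have h0 : ∀ w, Pool.Agent.Helper49.SH.em q w (0 : Iq q → ℂ) = 0 := by
    intro w
    simp [Pool.Agent.Helper49.SH.em]
  unfold tp
  rw [h1, h0, h0]
  change ((Pool.Agent.Helper49.SH.em q v ε, 0), (Pool.Agent.Helper49.SH.em q (q - v) ε, 0)) = _
  rw [hε _ (pq_mem v).1, hε _ h6]

theorem tp_jr {u : ℕ} {ε : Iq q → ℂ} (hs1 : HS q s1) (hε : IsEps q u ε) (v : Pq q s1) :
    tp q v (jr ε) = ((0, (if (v : ℕ) = u then 1 else 0)), (0, (if q - (v : ℕ) = u then 1 else 0))) := by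
  obtain ⟨h3, h4, h5, h6, h7, h8⟩ := uu_bounds hs1.three (pq_mem v).1
  have h1 : (fun i => (jr ε : Iq q ⊕ Iq q → ℂ) (Sum.inl i)) = 0 := rfl
  have h0 : ∀ w, Pool.Agent.Helper49.SH.em q w (0 : Iq q → ℂ) = 0 := by
    intro w
    simp [Pool.Agent.Helper49.SH.em]
  unfold tp
  rw [h1, h0, h0]
  change ((0, Pool.Agent.Helper49.SH.em q v ε), (0, Pool.Agent.Helper49.SH.em q (q - v) ε)) = _
  rw [hε _ (pq_mem v).1, hε _ h6]

theorem mv_add' {ι ι' : Type} [Fintype ι] [Fintype ι'] (M : ι → ι' → ℚ) (w w' : ι' → ℂ) :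
    Pool.Agent.Helper49.SH.mv M (w + w') = Pool.Agent.Helper49.SH.mv M w +
      Pool.Agent.Helper49.SH.mv M w' := (Pool.Agent.Helper49.SH.mvL M).map_add w w'

theorem tp_add (v : ℕ) (y y' : Iq q ⊕ Iq q → ℂ) : tp q v (y + y') = tp q v y + tp q v y' := by
  refine Prod.ext (Prod.ext ?_ ?_) (Prod.ext ?_ ?_) <;>
    simp [tp, Pool.Agent.Helper49.SH.em, add_mul, Finset.sum_add_distrib]

theorem tp_smul (v : ℕ) (t : ℂ) (y : Iq q ⊕ Iq q → ℂ) : tp q v (t • y) = t • tp q v y := by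
  refine Prod.ext (Prod.ext ?_ ?_) (Prod.ext ?_ ?_) <;>
    simp [tp, Pool.Agent.Helper49.SH.em, mul_assoc, Finset.mul_sum]

theorem alg_s (s : K →+* ℂ) (x : K) : IsAlgebraic ℚ (s x) :=
  (Algebra.IsAlgebraic.isAlgebraic (R := ℚ) x).algHom (RingHom.equivRatAlgHom K ℂ s)

theorem alg_cc (s : K →+* ℂ) (x : K) : IsAlgebraic ℚ (cc (s x)) := alg_s (cc.comp s) x

theorem Cyc.algAct (h : Cyc q s1 s2 ξ1 ξ2 c s κ ζ a kr T R S S') {M : Matrix (Fin 2) (Fin 2) K}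
    (hM : M.det ≠ 0) : AlgAct q (QM R S S' M) := by
  have hdet : ∀ φ : K →+* ℂ, φ (M 0 0) * φ (M 1 1) - φ (M 0 1) * φ (M 1 0) ≠ 0 := by
    intro φ h1
    refine (map_ne_zero φ).2 hM ?_
    rw [Matrix.det_fin_two, map_sub, map_mul, map_mul, h1]
  intro u hu ε hε
  rcases place_cases h.hs1 hu with ⟨v0, hv0⟩ | ⟨v0, hv0⟩
  · refine ⟨s v0 (M 0 0), s v0 (M 0 1), s v0 (M 1 0), s v0 (M 1 1), alg_s _ _, alg_s _ _, alg_s _ _,
      alg_s _ _, hdet _, ?_, ?_⟩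
    · refine h.ext fun v => ?_
      rw [h.tp_QM, tp_add, tp_smul, tp_smul, tp_jl h.hs1 hε, tp_jr h.hs1 hε]
      have hne : ¬ q - (v : ℕ) = u := by
        obtain ⟨h3, h4, h5, h6, h7, h8⟩ := uu_bounds h.hs1.three (pq_mem v).1
        intro h9
        rw [hv0] at h9
        have h10 := (hs_iff h.hs1 (pq_mem v).1).not.1 (pq_mem v).2
        rw [not_not, h9] at h10
        exact (pq_mem v0).2 h10
      by_cases hv : (v : ℕ) = u
      · have hvv : v = v0 := Subtype.ext (hv.trans hv0)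
        subst hvv
        rw [if_pos hv, if_neg hne]
        simp [a1, act]
      · simp [a1, act, hv, hne]
    · refine h.ext fun v => ?_
      rw [h.tp_QM, tp_add, tp_smul, tp_smul, tp_jl h.hs1 hε, tp_jr h.hs1 hε]
      have hne : ¬ q - (v : ℕ) = u := by
        obtain ⟨h3, h4, h5, h6, h7, h8⟩ := uu_bounds h.hs1.three (pq_mem v).1
        intro h9
        rw [hv0] at h9
        have h10 := (hs_iff h.hs1 (pq_mem v).1).not.1 (pq_mem v).2
        rw [not_not, h9] at h10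
        exact (pq_mem v0).2 h10
      by_cases hv : (v : ℕ) = u
      · have hvv : v = v0 := Subtype.ext (hv.trans hv0)
        subst hvv
        rw [if_pos hv, if_neg hne]
        simp [a1, act]
      · simp [a1, act, hv, hne]
  · have hq0 := (uu_bounds h.hs1.three (pq_mem v0).1)
    have hu1 : u ∈ s1 := by
      have h10 := (hs_iff h.hs1 (pq_mem v0).1).not.1 (pq_mem v0).2
      rw [not_not] at h10
      rw [hv0]
      exact h10
    refine ⟨cc (s v0 (M 0 0)), cc (s v0 (M 0 1)), cc (s v0 (M 1 0)), cc (s v0 (M 1 1)), alg_cc _ _,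
      alg_cc _ _, alg_cc _ _, alg_cc _ _, hdet (cc.comp (s v0)), ?_, ?_⟩
    · refine h.ext fun v => ?_
      rw [h.tp_QM, tp_add, tp_smul, tp_smul, tp_jl h.hs1 hε, tp_jr h.hs1 hε]
      have hne : ¬ (v : ℕ) = u := fun h9 => (pq_mem v).2 (h9 ▸ hu1)
      by_cases hv : q - (v : ℕ) = u
      · have hvv : v = v0 := by
          refine Subtype.ext ?_
          have h3 := (uu_bounds h.hs1.three (pq_mem v).1)
          omega
        subst hvv
        simp [a1, act, hv, hne]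
      · simp [a1, act, hv, hne]
    · refine h.ext fun v => ?_
      rw [h.tp_QM, tp_add, tp_smul, tp_smul, tp_jl h.hs1 hε, tp_jr h.hs1 hε]
      have hne : ¬ (v : ℕ) = u := fun h9 => (pq_mem v).2 (h9 ▸ hu1)
      by_cases hv : q - (v : ℕ) = u
      · have hvv : v = v0 := by
          refine Subtype.ext ?_
          have h3 := (uu_bounds h.hs1.three (pq_mem v).1)
          omega
        subst hvv
        simp [a1, act, hv, hne]
      · simp [a1, act, hv, hne]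

/-! ### compactness -/

theorem Cyc.plane (h : Cyc q s1 s2 ξ1 ξ2 c s κ ζ a kr T R S S') {u : ℕ} (hu : u ∈ s1 ∩ s2)
    {ε : Iq q → ℂ} (hε : IsEps q u ε) : ∃ v0 : Pq q s1, kr v0 < 0 ∧
      Pool.Agent.Helper49.SH.mv S' (jl ε) = p1 T v0 ∧
      Pool.Agent.Helper49.SH.mv S' (jr ε) = p2 T v0 := by
  obtain ⟨hu1, hu2⟩ := Finset.mem_inter.1 hu
  have huu := hs_uu h.hs1 hu1
  obtain ⟨h3, h4, h5, h6, h7, h8⟩ := uu_bounds h.hs1.three huu
  obtain ⟨v0, hv0⟩ : ∃ v0 : Pq q s1, (v0 : ℕ) = q - u :=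
    ⟨⟨q - u, Finset.mem_sdiff.2 ⟨h6, (hs_iff h.hs1 huu).1 hu1⟩⟩, rfl⟩
  have hk : kr v0 < 0 := by
    have h9 : ¬ 0 < kr v0 := by
      rw [← h.sgn, hv0]
      exact (hs_iff h.hs2 huu).1 hu2
    exact lt_of_le_of_ne (not_lt.1 h9) (h.ari.hk0 v0)
  have hne : ∀ v : Pq q s1, ¬ (v : ℕ) = u := fun v h9 => (pq_mem v).2 (h9 ▸ hu1)
  have hiff : ∀ v : Pq q s1, q - (v : ℕ) = u ↔ v = v0 := by
    intro v
    have h10 := (uu_bounds h.hs1.three (pq_mem v).1)
    constructor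
    · intro h9
      refine Subtype.ext ?_
      omega
    · intro h9
      rw [h9, hv0]
      exact h7
  refine ⟨v0, hk, ?_, ?_⟩
  · refine T.injective (funext fun v => ?_)
    rw [h.coord, h.inv1, p1, LinearEquiv.apply_symm_apply, tp_jl h.hs1 hε, if_neg (hne v)]
    by_cases hv : v = v0
    · rw [if_pos ((hiff v).2 hv), hv, Pi.single_eq_same]
    · rw [if_neg fun h9 => hv ((hiff v).1 h9), Pi.single_eq_of_ne hv]
      rfl
  · refine T.injective (funext fun v => ?_)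
    rw [h.coord, h.inv1, p2, LinearEquiv.apply_symm_apply, tp_jr h.hs1 hε, if_neg (hne v)]
    by_cases hv : v = v0
    · rw [if_pos ((hiff v).2 hv), hv, Pi.single_eq_same]
    · rw [if_neg fun h9 => hv ((hiff v).1 h9), Pi.single_eq_of_ne hv]
      rfl

/-! ### the splitting at the dense orbit -/

theorem Cyc.mem_np (h : Cyc q s1 s2 ξ1 ξ2 c s κ ζ a kr T R S S') (y : Iq q ⊕ Iq q → ℂ) :
    y ∈ Np (Ns q s1) (Ns q s2) ↔ ∀ v : Pq q s1, n1 (kr v) 0 (tp q v y) := by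
  constructor
  · rintro ⟨h1, h2⟩ v
    obtain ⟨h3, h4, h5, h6, h7, h8⟩ := uu_bounds h.hs1.three (pq_mem v).1
    have h10 := (hs_iff h.hs1 (pq_mem v).1).not.1 (pq_mem v).2
    rw [not_not] at h10
    refine ⟨fun hk => ⟨?_, ?_⟩, fun hk => ?_⟩
    · rw [zero_mul]
      exact h2 _ ((h.sgn v).2 hk)
    · rw [mul_zero, zero_mul]
      exact h1 _ h10
    · refine Prod.ext ?_ ?_
      · exact h1 _ h10
      · refine h2 _ ?_
        have h11 := (hs_iff h.hs2 (pq_mem v).1).not.1 (fun h12 => hk ((h.sgn v).1 h12))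
        rwa [not_not] at h11
  · intro hy
    have key : ∀ v : Pq q s1, (tp q v y).2.1 = 0 := by
      intro v
      by_cases hk : 0 < kr v
      · have := ((hy v).1 hk).2
        rw [mul_zero, zero_mul] at this
        exact this
      · rw [(hy v).2 hk]
        rfl
    refine ⟨fun u hu => ?_, fun u hu => ?_⟩
    · rcases place_cases h.hs1 (hs_uu h.hs1 hu) with ⟨v, hv⟩ | ⟨v, hv⟩
      · exact absurd (hv ▸ hu) (pq_mem v).2
      · rw [hv]
        exact key v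
    · rcases place_cases h.hs1 (hs_uu h.hs2 hu) with ⟨v, hv⟩ | ⟨v, hv⟩
      · have hk : 0 < kr v := (h.sgn v).1 (hv ▸ hu)
        have := ((hy v).1 hk).1
        rw [zero_mul] at this
        rw [hv]
        exact this
      · have hk : ¬ 0 < kr v := by
          intro h12
          have h13 := (hs_iff h.hs2 (pq_mem v).1).1 ((h.sgn v).2 h12)
          exact h13 (hv ▸ hu)
        have := (hy v).2 hk
        rw [hv]
        exact congrArg Prod.snd this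

theorem Cyc.orbit [NeZero q] (h : Cyc q s1 s2 ξ1 ξ2 c s κ ζ a kr T R S S')
    {E1 E2 : Iq q → Iq q → ℚ} (hk1 : KForm q ξ1 E1) (hk2 : KForm q ξ2 E2) {b : K × K}
    (hb : nrd c κ b = 1) :
    ∃ A A' : Iq q ⊕ Iq q → Iq q ⊕ Iq q → ℚ, Inv2 A A' ∧
      pb (dsum E1 E2) A = dsum E1 E2 ∧ AlgAct q A ∧
      ∀ w, w ∈ Pool.Agent.Helper96.SH.NZ (ZX T kr (xb s kr b)) ↔
        Pool.Agent.Helper49.SH.mv A (Pool.Agent.Helper49.SH.mv S w) ∈ Np (Ns q s1) (Ns q s2) := by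
  obtain ⟨B, hB⟩ : ∃ B, B = gam c κ (c b.1, -b.2) := ⟨_, rfl⟩
  have hgB : gam c κ b * B = 1 := by
    rw [hB]
    exact gam_inv c κ h.ari.hcj2 h.ari.hκ hb
  have hBg : B * gam c κ b = 1 := mul_eq_one_comm.1 hgB
  have hgU := h.ari.isU_gam hb
  have hBU : ∀ v, IsU (kr v) (B.map (s v)) := by
    intro v
    refine isU_inv (hgU v) ?_
    rw [← Matrix.map_mul, hgB, Matrix.map_one _ (map_zero _) (map_one _)]
  have hBd : B.det ≠ 0 := by
    intro h0
    have h1 := congrArg Matrix.det hBg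
    rw [Matrix.det_mul, h0, zero_mul, Matrix.det_one] at h1
    exact zero_ne_one h1
  have hgd : (gam c κ b).det ≠ 0 := by
    rw [det_gam, hb]
    exact one_ne_zero
  refine ⟨QM R S S' B, QM R S S' (gam c κ b), h.QM_inv hBg, h.pb_act hk1 hk2 hBU, h.algAct hBd,
    fun w => ?_⟩
  have h1 := h.ari.mem_act hgU hgd zero_mem_XX (Pool.Agent.Helper16.SH.mQ (R B) w)
  rw [← h.ari.xb_eq hb, ← h.ari.mul, hgB, h.ari.one] at h1
  rw [← h1, mem_NX h.ari.ha h.ari.hk0 h.ari.coo zero_mem_XX, mv_QM, h.inv2, h.mem_np]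
  refine forall_congr' fun v => ?_
  have h2 : xt (0 : Pl kr → ℂ) v = 0 := by
    unfold xt
    split_ifs <;> rfl
  rw [h2, h.coord]

end Pool.Agent.Helper94.SX
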