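import Pool.Agent.Helper96.SH.Ca

/-!
PROJECT SH / ALLQ (MP_274814_nt), block X, generic part: from a holomorphic frame `(A; B)` of a positive
Lagrangian subspace of `C^(mu + mu)` to the Siegel matrix `Z = -B A^{-1}`.
-/

set_option autoImplicit false

namespace Pool.Agent.Helper94.SX

open Complex Pool.Agent.Helper96.SH

variable {μ : Type} [Fintype μ] [DecidableEq μ]

/-- the standard alternating form `p q' - q p'` -/
def E0 (w w' : μ ⊕ μ → ℂ) : ℂ :=
  ∑ i, (w (Sum.inl i) * w' (Sum.inr i) - w (Sum.inr i) * w' (Sum.inl i))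

/-- complex conjugation of coordinates -/
noncomputable def cj {ι : Type} (w : ι → ℂ) : ι → ℂ := fun i => (starRingEnd ℂ) (w i)

/-- the vectors `(p, -Z p)` -/
def NZ (Z : Matrix μ μ ℂ) : Submodule ℂ (μ ⊕ μ → ℂ) where
  carrier := {w | ∀ i, w (Sum.inr i) = -∑ j, Z i j * w (Sum.inl j)}
  add_mem' := by
    intro a b ha hb i
    simp only [Pi.add_apply, ha i, hb i, mul_add, Finset.sum_add_distrib]
    ring
  zero_mem' := by
    intro i
    simp
  smul_mem' := by
    intro c a ha i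
    simp only [Pi.smul_apply, smul_eq_mul, ha i, mul_neg, Finset.mul_sum]
    congr 1
    refine Finset.sum_congr rfl fun j _ => ?_
    ring

omit [DecidableEq μ] in
theorem mem_NZ {Z : Matrix μ μ ℂ} {w : μ ⊕ μ → ℂ} :
    w ∈ NZ Z ↔ ∀ i, w (Sum.inr i) = -∑ j, Z i j * w (Sum.inl j) := Iff.rfl

/-- the vector with coordinates `c` in the frame `(A; B)` -/
def fv (A B : Matrix μ μ ℂ) (c : μ → ℂ) : μ ⊕ μ → ℂ := Sum.elim (A.mulVec c) (B.mulVec c)

/-- frame of a positive Lagrangian subspace -/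
structure Frm (A B : Matrix μ μ ℂ) : Prop where
  iso : A.transpose * B = B.transpose * A
  pos : ∀ c : μ → ℂ, c ≠ 0 → 0 < (-I * E0 (fv A B c) (cj (fv A B c))).re

omit [DecidableEq μ] in
theorem E0_conj (w : μ ⊕ μ → ℂ) :
    (-I * E0 w (cj w)).re = 2 * (∑ i, w (Sum.inl i) * (starRingEnd ℂ) (w (Sum.inr i))).im := by
  have h0 : ∀ S : ℂ, (-I * S).re = S.im := by
    intro S
    simp
  rw [h0, E0, Complex.im_sum, Complex.im_sum, Finset.mul_sum]
  refine Finset.sum_congr rfl fun i _ => ?_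
  simp only [cj, Complex.sub_im, Complex.mul_im, Complex.conj_re, Complex.conj_im]
  ring

theorem Frm.det_ne {A B : Matrix μ μ ℂ} (h : Frm A B) : A.det ≠ 0 := by
  intro h0
  obtain ⟨c, hc, h1⟩ := Matrix.exists_mulVec_eq_zero_iff.2 h0
  have h2 := h.pos c hc
  rw [E0_conj] at h2
  simp [fv, h1] at h2

/-- the Siegel matrix of a frame -/
noncomputable def ZZ (A B : Matrix μ μ ℂ) : Matrix μ μ ℂ := -(B * A⁻¹)

theorem Frm.inv_mul {A B : Matrix μ μ ℂ} (h : Frm A B) : A⁻¹ * A = 1 :=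
  Matrix.nonsing_inv_mul A (isUnit_iff_ne_zero.2 h.det_ne)

theorem Frm.mul_inv {A B : Matrix μ μ ℂ} (h : Frm A B) : A * A⁻¹ = 1 :=
  Matrix.mul_nonsing_inv A (isUnit_iff_ne_zero.2 h.det_ne)

theorem Frm.ZZ_mul {A B : Matrix μ μ ℂ} (h : Frm A B) : ZZ A B * A = -B := by
  rw [ZZ, neg_mul, Matrix.mul_assoc, h.inv_mul, Matrix.mul_one]

theorem Frm.symm {A B : Matrix μ μ ℂ} (h : Frm A B) : (ZZ A B).transpose = ZZ A B := by
  rw [ZZ, Matrix.transpose_neg, Matrix.transpose_mul, Matrix.transpose_nonsing_inv]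
  congr 1
  have h1 : A.transpose⁻¹ * A.transpose = 1 := Matrix.nonsing_inv_mul _
    (by rw [Matrix.det_transpose]; exact isUnit_iff_ne_zero.2 h.det_ne)
  calc A.transpose⁻¹ * B.transpose
      = A.transpose⁻¹ * (B.transpose * A) * A⁻¹ := by
        rw [← Matrix.mul_assoc, Matrix.mul_assoc _ A, h.mul_inv, Matrix.mul_one]
    _ = A.transpose⁻¹ * (A.transpose * B) * A⁻¹ := by rw [h.iso]
    _ = B * A⁻¹ := by rw [← Matrix.mul_assoc, h1, Matrix.one_mul]

theorem Frm.fv_mem {A B : Matrix μ μ ℂ} (h : Frm A B) (c : μ → ℂ) : fv A B c ∈ NZ (ZZ A B) := by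
  intro i
  have h1 : (ZZ A B).mulVec (A.mulVec c) = -(B.mulVec c) := by
    rw [Matrix.mulVec_mulVec, h.ZZ_mul, Matrix.neg_mulVec]
  have h2 := congrFun h1 i
  change B.mulVec c i = -((ZZ A B).mulVec (A.mulVec c) i)
  rw [h2]
  simp

theorem Frm.mem_iff {A B : Matrix μ μ ℂ} (h : Frm A B) (w : μ ⊕ μ → ℂ) :
    w ∈ NZ (ZZ A B) ↔ ∃ c, w = fv A B c := by
  constructor
  · intro hw
    obtain ⟨c, hc⟩ : ∃ c, c = A⁻¹.mulVec (fun i => w (Sum.inl i)) := ⟨_, rfl⟩
    have h1 : A.mulVec c = fun i => w (Sum.inl i) := by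
      rw [hc, Matrix.mulVec_mulVec, h.mul_inv, Matrix.one_mulVec]
    refine ⟨c, ?_⟩
    funext s
    rcases s with i | i
    · exact (congrFun h1 i).symm
    · rw [hw i]
      have h2 := h.fv_mem c i
      change B.mulVec c i = -((ZZ A B).mulVec (A.mulVec c) i) at h2
      rw [h1] at h2
      exact h2.symm
  · rintro ⟨c, rfl⟩
    exact h.fv_mem c

theorem Frm.real_pos {A B : Matrix μ μ ℂ} (h : Frm A B) (x : μ → ℝ) (hx : x ≠ 0) :
    0 < ∑ i, ∑ j, x i * (ZZ A B i j).im * x j := by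
  obtain ⟨c, hc⟩ : ∃ c, c = A⁻¹.mulVec (fun i => (x i : ℂ)) := ⟨_, rfl⟩
  have h1 : A.mulVec c = fun i => (x i : ℂ) := by
    rw [hc, Matrix.mulVec_mulVec, h.mul_inv, Matrix.one_mulVec]
  have hc0 : c ≠ 0 := by
    intro h2
    rw [h2, Matrix.mulVec_zero] at h1
    refine hx (funext fun i => ?_)
    have h3 : (x i : ℂ) = 0 := (congrFun h1 i).symm
    have h4 : x i = 0 := by exact_mod_cast h3
    exact h4
  have h2 := h.pos c hc0
  rw [E0_conj] at h2
  have h3 : ∀ i, B.mulVec c i = -∑ j, ZZ A B i j * (x j : ℂ) := by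
    intro i
    have h4 := h.fv_mem c i
    change B.mulVec c i = -∑ j, ZZ A B i j * A.mulVec c j at h4
    rw [h4, h1]
  have h5 : (∑ i, fv A B c (Sum.inl i) * (starRingEnd ℂ) (fv A B c (Sum.inr i))).im =
      ∑ i, ∑ j, x i * (ZZ A B i j).im * x j := by
    rw [Complex.im_sum]
    refine Finset.sum_congr rfl fun i _ => ?_
    change (A.mulVec c i * (starRingEnd ℂ) (B.mulVec c i)).im = _
    rw [h1, h3, Complex.im_ofReal_mul, Complex.conj_im, Complex.neg_im, neg_neg, Complex.im_sum,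
      Finset.mul_sum]
    refine Finset.sum_congr rfl fun j _ => ?_
    rw [Complex.im_mul_ofReal]
    ring
  rw [h5] at h2
  linarith

theorem Frm.sieg {A B : Matrix μ μ ℂ} (h : Frm A B) : Sieg (ZZ A B) where
  symm i j := by
    have h1 := congrFun (congrFun h.symm j) i
    exact h1
  pos := by
    obtain ⟨f, hf⟩ : ∃ f : (μ → ℝ) → ℝ, ∀ x, f x = ∑ i, ∑ j, x i * (ZZ A B i j).im * x j :=
      ⟨_, fun _ => rfl⟩
    have hfc : Continuous f := by
      have h1 : f = fun x => ∑ i, ∑ j, x i * (ZZ A B i j).im * x j := funext hf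
      rw [h1]
      fun_prop
    have hpos : ∀ x, x ≠ 0 → 0 < f x := fun x hx => by rw [hf]; exact h.real_pos x hx
    have hhom : ∀ (t : ℝ) x, f (t • x) = t ^ 2 * f x := by
      intro t x
      rw [hf, hf, Finset.mul_sum]
      refine Finset.sum_congr rfl fun i _ => ?_
      rw [Finset.mul_sum]
      refine Finset.sum_congr rfl fun j _ => ?_
      simp only [Pi.smul_apply, smul_eq_mul]
      ring
    have hcomp : IsCompact {x : μ → ℝ | ∑ i, x i ^ 2 = 1} := by
      refine (isCompact_closedBall (0 : μ → ℝ) 1).of_isClosed_subset ?_ ?_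
      · exact isClosed_eq (by fun_prop) continuous_const
      · intro x hx
        rw [mem_closedBall_zero_iff, pi_norm_le_iff_of_nonneg zero_le_one]
        intro i
        have h1 : x i ^ 2 ≤ ∑ i, x i ^ 2 :=
          Finset.single_le_sum (f := fun i => x i ^ 2) (fun i _ => sq_nonneg _) (Finset.mem_univ i)
        rw [hx] at h1
        rw [Real.norm_eq_abs]
        exact abs_le_one_iff_mul_self_le_one.2 (by nlinarith)
    have hsc : ∀ x : μ → ℝ, x ≠ 0 → ∃ t : ℝ, ∃ y ∈ {x : μ → ℝ | ∑ i, x i ^ 2 = 1},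
        x = t • y ∧ t ^ 2 = ∑ i, x i ^ 2 := by
      intro x hx
      have hs : 0 < ∑ i, x i ^ 2 := by
        obtain ⟨i, hi⟩ := Function.ne_iff.1 hx
        refine Finset.sum_pos' (fun i _ => sq_nonneg _) ⟨i, Finset.mem_univ i, ?_⟩
        exact lt_of_le_of_ne (sq_nonneg _) (Ne.symm (pow_ne_zero 2 hi))
      have hr := Real.sqrt_pos.2 hs
      refine ⟨Real.sqrt (∑ i, x i ^ 2), (Real.sqrt (∑ i, x i ^ 2))⁻¹ • x, ?_, ?_, ?_⟩
      · change ∑ i, ((Real.sqrt (∑ i, x i ^ 2))⁻¹ • x) i ^ 2 = 1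
        simp only [Pi.smul_apply, smul_eq_mul, mul_pow]
        rw [← Finset.mul_sum, inv_pow, Real.sq_sqrt hs.le, inv_mul_cancel₀ hs.ne']
      · rw [smul_smul, mul_inv_cancel₀ hr.ne', one_smul]
      · exact Real.sq_sqrt hs.le
    rcases Set.eq_empty_or_nonempty {x : μ → ℝ | ∑ i, x i ^ 2 = 1} with he | hne
    · refine ⟨1, one_pos, fun x => ?_⟩
      have hx : x = 0 := by
        by_contra hx
        obtain ⟨t, y, hy, -, -⟩ := hsc x hx
        rw [he] at hy
        exact hy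
      subst hx
      simp
    · obtain ⟨x0, hx0, hmin⟩ := hcomp.exists_isMinOn hne hfc.continuousOn
      have hx00 : x0 ≠ 0 := by
        rintro rfl
        have h1 : ∑ i, (0 : μ → ℝ) i ^ 2 = 1 := hx0
        simp at h1
      refine ⟨f x0, hpos x0 hx00, fun x => ?_⟩
      rw [← hf]
      by_cases hx : x = 0
      · have h0 : f 0 = 0 := by
          rw [hf]
          simp
        rw [hx, h0]
        simp
      · obtain ⟨t, y, hy, h1, h2⟩ := hsc x hx
        rw [← h2, h1, hhom, mul_comm]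
        exact mul_le_mul_of_nonneg_left (hmin hy) (sq_nonneg t)

/-! ### holomorphic frames -/

section hol

variable {V : Type*} [NormedAddCommGroup V] [NormedSpace ℂ V] {X : Set V}

omit [Fintype μ] [DecidableEq μ] in
theorem prod_hol (s : Finset μ) (f : μ → V → ℂ) (h : ∀ i, DifferentiableOn ℂ (f i) X) :
    DifferentiableOn ℂ (fun x => ∏ i ∈ s, f i x) X := by
  classical
  induction s using Finset.induction_on with
  | empty =>
    simp only [Finset.prod_empty]
    exact differentiableOn_const _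
  | insert a s ha ih =>
    simp only [Finset.prod_insert ha]
    exact (h a).mul ih

theorem det_hol {M : V → Matrix μ μ ℂ} (h : ∀ i j, DifferentiableOn ℂ (fun x => M x i j) X) :
    DifferentiableOn ℂ (fun x => (M x).det) X := by
  simp only [Matrix.det_apply]
  refine DifferentiableOn.fun_sum fun σ _ => ?_
  refine DifferentiableOn.const_smul ?_ _
  exact prod_hol _ (fun i x => M x (σ i) i) fun i => h (σ i) i

theorem inv_hol {A : V → Matrix μ μ ℂ} (h : ∀ i j, DifferentiableOn ℂ (fun x => A x i j) X)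
    (hd : ∀ x ∈ X, (A x).det ≠ 0) (i j : μ) : DifferentiableOn ℂ (fun x => (A x)⁻¹ i j) X := by
  have h1 : (fun x => (A x)⁻¹ i j) = fun x => (A x).det⁻¹ * (A x).adjugate i j := by
    funext x
    rw [Matrix.inv_def, Ring.inverse_eq_inv', Matrix.smul_apply, smul_eq_mul]
  rw [h1]
  refine ((det_hol h).inv hd).mul ?_
  simp only [Matrix.adjugate_apply]
  refine det_hol fun k l => ?_
  by_cases hk : k = j
  · subst hk
    simp only [Matrix.updateRow_self]
    exact differentiableOn_const _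
  · simp only [Matrix.updateRow_ne hk]
    exact h k l

theorem ZZ_hol {A B : V → Matrix μ μ ℂ} (hA : ∀ i j, DifferentiableOn ℂ (fun x => A x i j) X)
    (hB : ∀ i j, DifferentiableOn ℂ (fun x => B x i j) X)
    (hd : ∀ x ∈ X, (A x).det ≠ 0) (i j : μ) :
    DifferentiableOn ℂ (fun x => ZZ (A x) (B x) i j) X := by
  simp only [ZZ, Matrix.neg_apply, Matrix.mul_apply]
  exact (DifferentiableOn.fun_sum fun k _ => (hB i k).mul (inv_hol hA hd k j)).neg

end hol

end Pool.Agent.Helper94.SX
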