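import Pool.Agent.Helper94.SX.Xa
import Pool.Agent.Helper94.SH.Qe

/-!
PROJECT SH / ALLQ (MP_274814_nt), block X, the concrete family in place coordinates.
A point `u` of `W_C` has at each place `v` the two components `(u v).1` (at `s v`) and `(u v).2` (at the
conjugate embedding).  `a v > 0` is `Im (s v xi1)` and `kap v` the value of `kap = -xi2/xi1`.
-/

set_option autoImplicit false

namespace Pool.Agent.Helper94.SX

open Complex Pool.Agent.Helper96.SH Pool.Agent.Helper94.SH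

/-- the two components at one place -/
abbrev PC : Type := (ℂ × ℂ) × (ℂ × ℂ)

/-! ### one place -/

/-- the bilinear form at one place -/
noncomputable def e1 (a κ : ℝ) (u w : PC) : ℂ :=
  I * a * ((u.1.1 * w.2.1 - κ * (u.1.2 * w.2.2)) - (u.2.1 * w.1.1 - κ * (u.2.2 * w.1.2)))

/-- complex conjugation at one place -/
noncomputable def c1 (u : PC) : PC := ((cc u.2.1, cc u.2.2), (cc u.1.1, cc u.1.2))

/-- `V^{0,1}` at one place, `κ > 0`: the lines through `(1, z)` and `(κ z, 1)`; `κ ≤ 0`: the first plane -/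
def n1 (κ : ℝ) (z : ℂ) (u : PC) : Prop :=
  (0 < κ → u.1.2 = z * u.1.1 ∧ u.2.1 = κ * z * u.2.2) ∧ (¬ 0 < κ → u.2 = 0)

open Classical in
/-- the frame at one place -/
noncomputable def f1 (κ : ℝ) (z : ℂ) (k : Fin 2) : PC :=
  if 0 < κ then (if k = 0 then ((1, z), (0, 0)) else ((0, 0), (κ * z, 1)))
  else (if k = 0 then ((1, 0), (0, 0)) else ((0, 1), (0, 0)))

/-- a pair of matrices acts -/
noncomputable def a1 (M : Matrix (Fin 2) (Fin 2) ℂ) (u : PC) : PC := (act M u.1, act (M.map cc) u.2)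

theorem n1_iff (κ : ℝ) (z : ℂ) (u : PC) :
    n1 κ z u ↔ ∃ c : Fin 2 → ℂ, u = c 0 • f1 κ z 0 + c 1 • f1 κ z 1 := by
  unfold n1 f1
  by_cases h : 0 < κ
  · simp only [h, if_true, forall_const, not_true_eq_false, IsEmpty.forall_iff, and_true,
      one_ne_zero, if_false]
    constructor
    · rintro ⟨h1, h2⟩
      refine ⟨![u.1.1, u.2.2], ?_⟩
      refine Prod.ext (Prod.ext ?_ ?_) (Prod.ext ?_ ?_)
      · simp
      · simp [h1, mul_comm]
      · simp [h2, mul_comm, mul_assoc]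
      · simp
    · rintro ⟨c, rfl⟩
      simp
      constructor <;> ring
  · simp only [h, if_false, IsEmpty.forall_iff, not_false_eq_true, forall_const, true_and,
      if_true, one_ne_zero]
    constructor
    · intro h1
      refine ⟨![u.1.1, u.1.2], ?_⟩
      refine Prod.ext (Prod.ext ?_ ?_) (Prod.ext ?_ ?_) <;> simp [h1]
    · rintro ⟨c, rfl⟩
      simp

theorem e1_iso {a κ : ℝ} {z : ℂ} {u w : PC} (hu : n1 κ z u) (hw : n1 κ z w) : e1 a κ u w = 0 := by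
  unfold e1
  by_cases h : 0 < κ
  · obtain ⟨h1, h2⟩ := hu.1 h
    obtain ⟨h3, h4⟩ := hw.1 h
    rw [h1, h2, h3, h4]
    ring
  · rw [hu.2 h, hw.2 h]
    simp

theorem e1_pos {a κ : ℝ} (ha : 0 < a) (hκ : κ ≠ 0) {z : ℂ} (hz : 0 < κ → κ * ‖z‖ ^ 2 < 1) {u : PC}
    (hu : n1 κ z u) (hu0 : u ≠ 0) : 0 < (-I * e1 a κ u (c1 u)).re := by
  have key : (-I * e1 a κ u (c1 u)).re =
      a * ((‖u.1.1‖ ^ 2 - κ * ‖u.1.2‖ ^ 2) - (‖u.2.1‖ ^ 2 - κ * ‖u.2.2‖ ^ 2)) := by
    simp only [e1, c1, ← Complex.normSq_eq_norm_sq, Complex.normSq_apply, Complex.add_re,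
      Complex.add_im, Complex.mul_re, Complex.mul_im, Complex.sub_re, Complex.sub_im,
      Complex.conj_re, Complex.conj_im, Complex.ofReal_re, Complex.ofReal_im, Complex.I_re,
      Complex.I_im, Complex.neg_re, Complex.neg_im]
    ring
  rw [key]
  refine mul_pos ha ?_
  by_cases h : 0 < κ
  · obtain ⟨h1, h2⟩ := hu.1 h
    have h3 := hz h
    have h4 : (‖u.1.1‖ ^ 2 - κ * ‖u.1.2‖ ^ 2) - (‖u.2.1‖ ^ 2 - κ * ‖u.2.2‖ ^ 2) =
        (1 - κ * ‖z‖ ^ 2) * (‖u.1.1‖ ^ 2 + κ * ‖u.2.2‖ ^ 2) := by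
      rw [h1, h2, norm_mul, norm_mul, norm_mul, Complex.norm_real, Real.norm_eq_abs,
        abs_of_pos h]
      ring
    rw [h4]
    refine mul_pos (by linarith) ?_
    by_contra h5
    have h6 : 0 ≤ ‖u.1.1‖ ^ 2 := sq_nonneg _
    have h7 : 0 ≤ κ * ‖u.2.2‖ ^ 2 := mul_nonneg h.le (sq_nonneg _)
    have h8 : ‖u.1.1‖ ^ 2 = 0 := by linarith
    have h9 : κ * ‖u.2.2‖ ^ 2 = 0 := by linarith
    have h10 : u.1.1 = 0 := by simpa using h8
    have h11 : u.2.2 = 0 := by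
      rcases mul_eq_zero.1 h9 with h12 | h12
      · exact absurd h12 hκ
      · simpa using h12
    refine hu0 (Prod.ext (Prod.ext h10 ?_) (Prod.ext ?_ h11))
    · rw [h1, h10, mul_zero]
      rfl
    · rw [h2, h11, mul_zero]
      rfl
  · have h1 := hu.2 h
    have h2 : κ < 0 := lt_of_le_of_ne (not_lt.1 h) hκ
    rw [h1]
    simp only [Prod.fst_zero, Prod.snd_zero, norm_zero, ne_eq, OfNat.ofNat_ne_zero,
      not_false_eq_true, zero_pow, mul_zero, sub_zero]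
    by_contra h5
    have h6 : 0 ≤ ‖u.1.1‖ ^ 2 := sq_nonneg _
    have h7 : 0 ≤ -κ * ‖u.1.2‖ ^ 2 := mul_nonneg (by linarith) (sq_nonneg _)
    have h8 : ‖u.1.1‖ ^ 2 = 0 := by linarith
    have h9 : -κ * ‖u.1.2‖ ^ 2 = 0 := by linarith
    have h10 : u.1.1 = 0 := by simpa using h8
    have h11 : u.1.2 = 0 := by
      rcases mul_eq_zero.1 h9 with h12 | h12
      · exact absurd (neg_eq_zero.1 h12) hκ
      · simpa using h12
    exact hu0 (Prod.ext (Prod.ext h10 h11) h1)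

/-- the immersion at one place -/
theorem e1_imm {a κ : ℝ} (ha : 0 < a) (h : 0 < κ) (z t : ℂ)
    (h1 : e1 a κ (f1 κ z 1) ((0, t), (0, 0)) = 0) : t = 0 := by
  simp only [e1, f1, h, if_true, one_ne_zero, if_false, mul_zero, zero_mul, one_mul, sub_zero,
    zero_sub, neg_neg, mul_eq_zero, Complex.I_ne_zero, Complex.ofReal_eq_zero, false_or] at h1
  rcases h1 with h1 | h1 | h1
  · exact absurd h1 ha.ne'
  · exact absurd h1 h.ne'
  · exact h1

/-- the hermitian form at one place -/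
noncomputable def hs (κ : ℝ) (x y : ℂ × ℂ) : ℂ := x.1 * cc y.1 - κ * (x.2 * cc y.2)

theorem nsq (w : ℂ) : ((‖w‖ ^ 2 : ℝ) : ℂ) = w * cc w := by
  rw [Complex.mul_conj, Complex.normSq_eq_norm_sq]

theorem isU_rel {κ : ℝ} {M : Matrix (Fin 2) (Fin 2) ℂ} (hM : IsU κ M) :
    M 0 0 * cc (M 0 0) - κ * (M 1 0 * cc (M 1 0)) = 1 ∧
    M 0 1 * cc (M 0 1) - κ * (M 1 1 * cc (M 1 1)) = -κ ∧
    M 0 0 * cc (M 0 1) - κ * (M 1 0 * cc (M 1 1)) = 0 ∧
    M 0 1 * cc (M 0 0) - κ * (M 1 1 * cc (M 1 0)) = 0 := by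
  refine ⟨?_, ?_, hM.n3, ?_⟩
  · rw [← nsq, ← nsq]
    exact_mod_cast congrArg (fun r : ℝ => (r : ℂ)) hM.n1
  · rw [← nsq, ← nsq]
    exact_mod_cast congrArg (fun r : ℝ => (r : ℂ)) hM.n2
  · have h5 := congrArg cc hM.n3
    simp only [map_sub, map_mul, Complex.conj_conj, Complex.conj_ofReal, map_zero] at h5
    linear_combination h5

theorem isU_hs {κ : ℝ} {M : Matrix (Fin 2) (Fin 2) ℂ} (hM : IsU κ M) (x y : ℂ × ℂ) :
    hs κ (act M x) (act M y) = hs κ x y := by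
  obtain ⟨h1, h2, h3, h4⟩ := isU_rel hM
  simp only [hs, act, map_add, map_mul]
  linear_combination (x.1 * cc y.1) * h1 + (x.2 * cc y.2) * h2 + (x.1 * cc y.2) * h3 +
    (x.2 * cc y.1) * h4

theorem isU_of_hs {κ : ℝ} {M : Matrix (Fin 2) (Fin 2) ℂ}
    (h : ∀ x y, hs κ (act M x) (act M y) = hs κ x y) : IsU κ M := by
  refine ⟨?_, ?_, ?_⟩
  · have h1 := h (1, 0) (1, 0)
    simp only [hs, act, mul_one, mul_zero, add_zero, map_one, sub_zero, zero_mul] at h1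
    rw [← nsq, ← nsq] at h1
    exact_mod_cast h1
  · have h1 := h (0, 1) (0, 1)
    simp only [hs, act, mul_one, mul_zero, zero_add, map_one, zero_mul, zero_sub] at h1
    rw [← nsq, ← nsq] at h1
    exact_mod_cast h1
  · have h1 := h (1, 0) (0, 1)
    simp only [hs, act, mul_one, mul_zero, zero_add, add_zero, map_one, map_zero, zero_mul,
      sub_zero] at h1
    exact h1

theorem act_one (x : ℂ × ℂ) : act (1 : Matrix (Fin 2) (Fin 2) ℂ) x = x := by
  refine Prod.ext ?_ ?_ <;> simp [act]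

theorem isU_inv {κ : ℝ} {M M' : Matrix (Fin 2) (Fin 2) ℂ} (hM : IsU κ M) (h : M * M' = 1) :
    IsU κ M' := by
  refine isU_of_hs fun x y => ?_
  rw [← isU_hs hM, ← act_mul, ← act_mul, h, act_one, act_one]

theorem e1_act {a κ : ℝ} {M : Matrix (Fin 2) (Fin 2) ℂ} (hM : IsU κ M) (u w : PC) :
    e1 a κ (a1 M u) (a1 M w) = e1 a κ u w := by
  obtain ⟨h1, h2, h3, h4⟩ := isU_rel hM
  have key : ∀ x y : ℂ × ℂ, (act M x).1 * (act (M.map cc) y).1 -
      κ * ((act M x).2 * (act (M.map cc) y).2) = x.1 * y.1 - κ * (x.2 * y.2) := by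
    intro x y
    simp only [act, Matrix.map_apply]
    linear_combination (x.1 * y.1) * h1 + (x.2 * y.2) * h2 + (x.1 * y.2) * h3 + (x.2 * y.1) * h4
  unfold e1 a1
  simp only
  rw [key u.1 w.2]
  have h5 := key w.1 u.2
  have h6 : (act (M.map cc) u.2).1 * (act M w.1).1 - κ * ((act (M.map cc) u.2).2 * (act M w.1).2) =
      u.2.1 * w.1.1 - κ * (u.2.2 * w.1.2) := by linear_combination h5
  rw [h6]

theorem n1_act {κ : ℝ} {M : Matrix (Fin 2) (Fin 2) ℂ} (hM : IsU κ M) {z : ℂ}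
    (hz : 0 < κ → κ * ‖z‖ ^ 2 < 1) {u : PC} (hu : n1 κ z u) : n1 κ (mob M z) (a1 M u) := by
  obtain ⟨h1, h2, h3, h4⟩ := isU_rel hM
  refine ⟨fun h => ?_, fun h => ?_⟩
  · obtain ⟨h5, h6⟩ := hu.1 h
    have hD := hM.den_ne h (hz h)
    have hm : mob M z * (M 0 0 + M 0 1 * z) = M 1 0 + M 1 1 * z := div_mul_cancel₀ _ hD
    constructor
    · simp only [a1, act, h5]
      linear_combination (-u.1.1) * hm
    · simp only [a1, act, Matrix.map_apply, h6]
      refine mul_right_cancel₀ hD ?_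
      linear_combination (κ * (cc (M 1 0) * (κ * z * u.2.2) + cc (M 1 1) * u.2.2)) * (-hm) +
        (κ * z * u.2.2) * h1 + (z * u.2.2) * h2 + (u.2.2) * h3 + (κ * z ^ 2 * u.2.2) * h4
  · simp only [a1, hu.2 h]
    refine Prod.ext ?_ ?_ <;> simp [act]

theorem mob_one (z : ℂ) : mob (1 : Matrix (Fin 2) (Fin 2) ℂ) z = z := by
  simp [mob]

theorem a1_mul (M N : Matrix (Fin 2) (Fin 2) ℂ) (u : PC) : a1 (M * N) u = a1 M (a1 N u) := by
  simp only [a1]
  rw [act_mul, Matrix.map_mul, act_mul]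

theorem a1_one (u : PC) : a1 1 u = u := by
  refine Prod.ext ?_ ?_
  · simp only [a1]
    exact act_one _
  · simp only [a1]
    rw [Matrix.map_one _ (map_zero cc) (map_one cc)]
    exact act_one _

theorem n1_act_iff {κ : ℝ} {M : Matrix (Fin 2) (Fin 2) ℂ} (hM : IsU κ M)
    (hu : IsUnit M.det) {z : ℂ} (hz : 0 < κ → κ * ‖z‖ ^ 2 < 1) (u : PC) :
    n1 κ z u ↔ n1 κ (mob M z) (a1 M u) := by
  refine ⟨n1_act hM hz, fun h => ?_⟩
  have h1 : M * M⁻¹ = 1 := Matrix.mul_nonsing_inv M hu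
  have h2 : M⁻¹ * M = 1 := Matrix.nonsing_inv_mul M hu
  have h3 := n1_act (isU_inv hM h1) (z := mob M z) (fun hk => hM.mob_mem hk (hz hk)) h
  rw [← a1_mul, h2, a1_one] at h3
  by_cases hk : 0 < κ
  · rw [← mob_mul (hM.den_ne hk (hz hk)), h2, mob_one] at h3
    exact h3
  · exact ⟨fun h4 => absurd h4 hk, h3.2⟩

end Pool.Agent.Helper94.SX
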