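import Pool.Agent.Helper94.SX.Xc
import Pool.Agent.Helper75.SH.K1
import Pool.Agent.Helper16.SH.Fb

/-!
PROJECT SH / ALLQ (MP_274814_nt), block X: the arithmetic family satisfies all hypotheses of the family
theorem of Helper16/SH/Fb.lean.
-/

set_option autoImplicit false

namespace Pool.Agent.Helper94.SX

open Complex Set NumberField Pool.Agent.Helper94.SH Pool.Agent.Helper16.SH

/-- index set of the standard coordinates -/
abbrev MM (ι : Type) : Type := (ι × Fin 2) ⊕ (ι × Fin 2)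

variable {K : Type} [Field K] [NumberField K] {ι : Type} [Fintype ι] [DecidableEq ι]

/-- arithmetic data -/
structure Ari (c : K →+* K) (s : ι → K →+* ℂ) (κ : K) (a kr : ι → ℝ)
    (T : (MM ι → ℂ) ≃ₗ[ℂ] (ι → PC)) (R : Matrix (Fin 2) (Fin 2) K → Matrix (MM ι) (MM ι) ℚ) :
    Prop where
  hs : ∀ φ : K →+* ℂ, ∃ v, φ = s v ∨ φ = cc.comp (s v)
  hcard : 2 * Fintype.card ι = Module.finrank ℚ K
  hcj2 : ∀ x, c (c x) = x
  hcj : ∀ v x, s v (c x) = cc (s v x)
  hκ : c κ = κ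
  hkr : ∀ v, s v κ = (kr v : ℂ)
  hk0 : ∀ v, kr v ≠ 0
  ha : ∀ v, 0 < a v
  coo : Coo a kr T
  act : ∀ (M : Matrix (Fin 2) (Fin 2) K) (w : MM ι → ℂ),
    T (mQ (R M) w) = AP (fun v => M.map (s v)) (T w)
  int : ∀ n : ℕ, 1 ≤ n → ∃ N : ℤ, N ≠ 0 ∧ ∀ b : K × K, (∃ x : 𝓞 K, b.1 - 1 = N * x) →
    (∃ x : 𝓞 K, b.2 = N * x) → (∃ x : 𝓞 K, κ * c b.2 = N * x) →
    ∃ M : Matrix (MM ι) (MM ι) ℤ, (∀ i j, ((M i j : ℤ) : ℚ) = R (gam c κ b) i j) ∧
      ∀ i j, (n : ℤ) ∣ M i j - (1 : Matrix (MM ι) (MM ι) ℤ) i j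

variable {c : K →+* K} {s : ι → K →+* ℂ} {κ : K} {a kr : ι → ℝ}
  {T : (MM ι → ℂ) ≃ₗ[ℂ] (ι → PC)} {R : Matrix (Fin 2) (Fin 2) K → Matrix (MM ι) (MM ι) ℚ}

theorem AP_mul (M N : ι → Matrix (Fin 2) (Fin 2) ℂ) (u : ι → PC) :
    AP (fun v => M v * N v) u = AP M (AP N u) := by
  funext v
  exact a1_mul _ _ _

theorem Ari.mul (h : Ari c s κ a kr T R) (M N : Matrix (Fin 2) (Fin 2) K) (w : MM ι → ℂ) :
    mQ (R (M * N)) w = mQ (R M) (mQ (R N) w) := by
  refine T.injective ?_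
  rw [h.act, h.act, h.act, ← AP_mul]
  congr 1
  funext v
  exact Matrix.map_mul

theorem Ari.one (h : Ari c s κ a kr T R) (w : MM ι → ℂ) : mQ (R 1) w = w := by
  refine T.injective ?_
  rw [h.act]
  funext v
  change a1 ((1 : Matrix (Fin 2) (Fin 2) K).map (s v)) (T w v) = T w v
  rw [Matrix.map_one _ (map_zero _) (map_one _), a1_one]

theorem mQ_mul {ι' : Type} [Fintype ι'] (A B : Matrix ι' ι' ℚ) (w : ι' → ℂ) :
    mQ (A * B) w = mQ A (mQ B w) := by
  funext i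
  simp only [mQ, Pool.Agent.Helper96.SH.mv, Matrix.mul_apply]
  push_cast
  simp only [Finset.sum_mul, Finset.mul_sum, mul_assoc]
  rw [Finset.sum_comm]

theorem mQ_one {ι' : Type} [Fintype ι'] [DecidableEq ι'] (w : ι' → ℂ) :
    mQ (1 : Matrix ι' ι' ℚ) w = w := by
  funext i
  simp only [mQ, Pool.Agent.Helper96.SH.mv, Matrix.one_apply]
  rw [Finset.sum_eq_single i]
  · simp
  · intro j _ hj
    simp [Ne.symm hj]
  · simp

theorem mQ_inj {ι' : Type} [Fintype ι'] [DecidableEq ι'] {A B : Matrix ι' ι' ℚ}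
    (h : ∀ w : ι' → ℂ, mQ A w = mQ B w) : A = B := by
  ext i j
  have h1 := congrFun (h (Pi.single j 1)) i
  simp only [mQ, Pool.Agent.Helper96.SH.mv, Pi.single_apply, mul_ite, mul_one, mul_zero,
    Finset.sum_ite_eq', Finset.mem_univ, if_true] at h1
  exact_mod_cast h1

theorem Ari.mul_eq (h : Ari c s κ a kr T R) (M N : Matrix (Fin 2) (Fin 2) K) :
    R (M * N) = R M * R N := by
  refine mQ_inj fun w => ?_
  rw [h.mul, mQ_mul]

theorem Ari.one_eq (h : Ari c s κ a kr T R) : R 1 = 1 := by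
  refine mQ_inj fun w => ?_
  rw [h.one, mQ_one]

theorem gam_map (c : K →+* K) (s : K →+* ℂ) (hcj : ∀ x, s (c x) = cc (s x)) (κ : K) (k : ℝ)
    (hk : s κ = (k : ℂ)) (b : K × K) : (gam c κ b).map s = gam cc (k : ℂ) (pmap s b) := by
  ext i j
  fin_cases i <;> fin_cases j <;> simp [gam, pmap, hcj, hk]

theorem Ari.nrd_real (h : Ari c s κ a kr T R) (v : ι) (b : K × K) :
    s v (nrd c κ b) = ((‖s v b.1‖ ^ 2 - kr v * ‖s v b.2‖ ^ 2 : ℝ) : ℂ) := by
  rw [nrd_map (s v) c cc (h.hcj v), h.hkr, nrd_cc]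
  rfl

theorem Ari.isU_gam (h : Ari c s κ a kr T R) {b : K × K} (hb : nrd c κ b = 1) (v : ι) :
    IsU (kr v) ((gam c κ b).map (s v)) := by
  rw [gam_map c (s v) (h.hcj v) κ (kr v) (h.hkr v)]
  refine IsU.of_gam ?_
  have h1 := h.nrd_real v b
  rw [hb, map_one] at h1
  exact_mod_cast h1.symm

theorem det_map_ne {M : Matrix (Fin 2) (Fin 2) K} (hM : M.det ≠ 0) (s : K →+* ℂ) :
    IsUnit (M.map s).det := by
  have h1 : (M.map s).det = s M.det := (RingHom.map_det s M).symm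
  rw [h1]
  exact isUnit_iff_ne_zero.2 ((map_ne_zero s).2 hM)

/-- the action of a rational isometry -/
theorem Ari.En_act (h : Ari c s κ a kr T R) {M : Matrix (Fin 2) (Fin 2) K}
    (hM : ∀ v, IsU (kr v) (M.map (s v))) (w w' : MM ι → ℂ) :
    En (Pool.Agent.Helper96.SH.E0 (ι × Fin 2)) (mQ (R M) w) (mQ (R M) w') =
      En (Pool.Agent.Helper96.SH.E0 (ι × Fin 2)) w w' := by
  rw [En_eq, En_eq, h.coo.form, h.coo.form, h.act, h.act, EP_act hM]

theorem Ari.mem_act (h : Ari c s κ a kr T R) {M : Matrix (Fin 2) (Fin 2) K}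
    (hM : ∀ v, IsU (kr v) (M.map (s v))) (hd : M.det ≠ 0) {x : Pl kr → ℂ} (hx : x ∈ XX kr)
    (w : MM ι → ℂ) :
    w ∈ Pool.Agent.Helper96.SH.NZ (ZX T kr x) ↔
      mQ (R M) w ∈ Pool.Agent.Helper96.SH.NZ (ZX T kr (mx (fun v => M.map (s v)) x)) :=
  mem_NX_act h.ha h.hk0 h.coo hM (fun v => det_map_ne hd (s v)) hx w _ (h.act M w)

/-- the vectors of the flat plane -/
noncomputable def p1 (T : (MM ι → ℂ) ≃ₗ[ℂ] (ι → PC)) (v0 : ι) : MM ι → ℂ :=
  T.symm (Pi.single v0 ((0, 0), (1, 0)))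

/-- the vectors of the flat plane -/
noncomputable def p2 (T : (MM ι → ℂ) ≃ₗ[ℂ] (ι → PC)) (v0 : ι) : MM ι → ℂ :=
  T.symm (Pi.single v0 ((0, 0), (0, 1)))

theorem AP_single (M : ι → Matrix (Fin 2) (Fin 2) ℂ) (v0 : ι) (u : PC) :
    AP M (Pi.single v0 u) = Pi.single v0 (a1 (M v0) u) := by
  funext v
  by_cases hv : v = v0
  · subst hv
    simp [AP]
  · rw [Pi.single_eq_of_ne hv]
    simp only [AP]
    rw [Pi.single_eq_of_ne hv]
    refine Prod.ext (Prod.ext ?_ ?_) (Prod.ext ?_ ?_) <;> simp [a1, Pool.Agent.Helper94.SH.act]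

theorem Ari.act_p (h : Ari c s κ a kr T R) (M : Matrix (Fin 2) (Fin 2) K) (v0 : ι) :
    mQ (R M) (p1 T v0) = cc (s v0 (M 0 0)) • p1 T v0 + cc (s v0 (M 1 0)) • p2 T v0 ∧
    mQ (R M) (p2 T v0) = cc (s v0 (M 0 1)) • p1 T v0 + cc (s v0 (M 1 1)) • p2 T v0 := by
  constructor
  · refine T.injective ?_
    rw [h.act, p1, p2, LinearEquiv.apply_symm_apply, AP_single, map_add, map_smul, map_smul,
      LinearEquiv.apply_symm_apply, LinearEquiv.apply_symm_apply, ← Pi.single_smul,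
      ← Pi.single_smul, ← Pi.single_add]
    congr 1
    refine Prod.ext (Prod.ext ?_ ?_) (Prod.ext ?_ ?_) <;> simp [a1, Pool.Agent.Helper94.SH.act]
  · refine T.injective ?_
    rw [h.act, p1, p2, LinearEquiv.apply_symm_apply, AP_single, map_add, map_smul, map_smul,
      LinearEquiv.apply_symm_apply, LinearEquiv.apply_symm_apply, ← Pi.single_smul,
      ← Pi.single_smul, ← Pi.single_add]
    congr 1
    refine Prod.ext (Prod.ext ?_ ?_) (Prod.ext ?_ ?_) <;> simp [a1, Pool.Agent.Helper94.SH.act]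

theorem act_unit {A : Type*} [CommRing A] (x : A × A) : act (1 : Matrix (Fin 2) (Fin 2) A) x = x := by
  refine Prod.ext ?_ ?_ <;> simp [Pool.Agent.Helper94.SH.act]

theorem gam_unit {A : Type*} [CommRing A] (c : A →+* A) (κ : A) : gam c κ (1, 0) = 1 := by
  ext i j
  fin_cases i <;> fin_cases j <;> simp [gam]

/-- the inverse of `gam b` -/
theorem gam_inv {A : Type*} [CommRing A] (c : A →+* A) (κ : A) (hc : ∀ x, c (c x) = x)
    (hκ : c κ = κ) {b : A × A} (hb : nrd c κ b = 1) :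
    gam c κ b * gam c κ (c b.1, -b.2) = 1 := by
  rw [gam_mul c κ hc hκ, ← gam_unit c κ]
  congr 1
  unfold nrd at hb
  refine Prod.ext ?_ ?_
  · simp only [Pool.Agent.Helper94.SH.act, gam_00, gam_01]
    linear_combination hb
  · simp only [Pool.Agent.Helper94.SH.act, gam_10, gam_11]
    ring

theorem mI_eq {M : Matrix (MM ι) (MM ι) ℤ} {A : Matrix (MM ι) (MM ι) ℚ}
    (h : ∀ i j, ((M i j : ℤ) : ℚ) = A i j) (w : MM ι → ℂ) : mI M w = mQ A w := by
  funext i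
  simp only [mI, mQ, Pool.Agent.Helper96.SH.mv]
  refine Finset.sum_congr rfl fun j _ => ?_
  rw [← h i j]
  push_cast
  rfl

theorem plane_inv {V : Type*} [AddCommGroup V] [Module ℂ V] (p q : V) (m00 m01 m10 m11 : ℂ)
    (h : m00 * m11 - m01 * m10 = 1) :
    p = m11 • (m00 • p + m10 • q) + (-m10) • (m01 • p + m11 • q) ∧
      q = (-m01) • (m00 • p + m10 • q) + m00 • (m01 • p + m11 • q) := by
  constructor
  · have h1 : m11 • (m00 • p + m10 • q) + (-m10) • (m01 • p + m11 • q) =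
        (m00 * m11 - m01 * m10) • p := by module
    rw [h1, h, one_smul]
  · have h1 : (-m01) • (m00 • p + m10 • q) + m00 • (m01 • p + m11 • q) =
        (m00 * m11 - m01 * m10) • q := by module
    rw [h1, h, one_smul]

/-- compactness -/
theorem Ari.cpt (h : Ari c s κ a kr T R) (v0 : ι) (hv0 : kr v0 < 0) :
    Cpt (Pool.Agent.Helper96.SH.E0 (ι × Fin 2)) (XX kr)
      (fun x => Pool.Agent.Helper96.SH.NZ (ZX T kr x)) (p1 T v0) (p2 T v0) := by
  intro n hn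
  have hre : ∀ v, (s v κ).re = kr v := fun v => by rw [h.hkr, Complex.ofReal_re]
  obtain ⟨N, hN, hint⟩ := h.int n hn
  obtain ⟨ρ, hρ0, hρ1, hρ⟩ := Pool.Agent.Helper75.SH.compact_quaternion c s h.hs h.hcard h.hcj2
    h.hcj h.hκ ⟨v0, by rw [hre]; exact hv0⟩ hN
  refine ⟨{x | ∀ v : Pl kr, kr v * ‖x v‖ ^ 2 ≤ ρ}, ?_, ?_, ?_⟩
  · obtain ⟨C, hC⟩ : ∃ C : ℝ, ∀ v : Pl kr, ρ / kr v ≤ C ^ 2 := by
      refine ⟨1 + ∑ v : Pl kr, ρ / kr v, fun v => ?_⟩
      have h1 : ρ / kr v ≤ ∑ v : Pl kr, ρ / kr v :=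
        Finset.single_le_sum (f := fun v : Pl kr => ρ / kr v)
          (fun v _ => div_nonneg hρ0 v.2.le) (Finset.mem_univ v)
      have h2 : 0 ≤ ∑ v : Pl kr, ρ / kr v := Finset.sum_nonneg fun v _ => div_nonneg hρ0 v.2.le
      nlinarith
    refine (isCompact_closedBall (0 : Pl kr → ℂ) |C|).of_isClosed_subset ?_ ?_
    · have h1 : {x : Pl kr → ℂ | ∀ v : Pl kr, kr v * ‖x v‖ ^ 2 ≤ ρ} =
          ⋂ v : Pl kr, {x | kr v * ‖x v‖ ^ 2 ≤ ρ} := by
        ext x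
        simp
      rw [h1]
      exact isClosed_iInter fun v => isClosed_le (by fun_prop) continuous_const
    · intro x hx
      rw [mem_closedBall_zero_iff, pi_norm_le_iff_of_nonneg (abs_nonneg C)]
      intro v
      have h2 : ‖x v‖ ^ 2 ≤ C ^ 2 := by
        refine le_trans ?_ (hC v)
        rw [le_div_iff₀ v.2, mul_comm]
        exact hx v
      rw [← abs_of_nonneg (norm_nonneg (x v))]
      exact sq_le_sq.1 h2
  · intro x hx v
    exact (hx v).trans_lt hρ1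
  · intro x hx
    obtain ⟨b, hb, h1, h2, h3, z', hz1, hz2⟩ := hρ (xt x) (by
      intro v hv
      rw [hre] at hv ⊢
      exact xt_lt hx v hv)
    have hM : ∀ v, IsU (kr v) ((gam c κ b).map (s v)) := h.isU_gam hb
    have hdet : (gam c κ b).det ≠ 0 := by rw [det_gam, hb]; exact one_ne_zero
    obtain ⟨y, hy⟩ : ∃ y : Pl kr → ℂ, ∀ v, y v = z' v := ⟨fun v => z' v, fun v => rfl⟩
    have hyX : y ∈ XX kr := by
      intro v
      have h4 := (hz1 v (by rw [hre]; exact v.2)).1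
      rw [hre] at h4
      rw [hy]
      exact h4.trans_lt hρ1
    have hxy : x = mx (fun v => (gam c κ b).map (s v)) y := by
      funext v
      have h4 := (hz1 v (by rw [hre]; exact v.2)).2
      rw [xt_pl] at h4
      rw [h4, mx, hy, gam_map c (s v) (h.hcj v) κ (kr v) (h.hkr v), h.hkr]
    obtain ⟨M, hM1, hM2⟩ := hint b h1 h2 h3
    obtain ⟨M', hM1', hM2'⟩ := hint (c b.1, -b.2) (by
      obtain ⟨x, hx⟩ := h1
      refine ⟨⟨c x, map_isIntegral_int c x.isIntegral_coe⟩, ?_⟩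
      have h4 := congrArg c hx
      rw [map_sub, map_one, map_mul, map_intCast] at h4
      exact h4) (by
      obtain ⟨x, hx⟩ := h2
      refine ⟨-x, ?_⟩
      push_cast
      rw [hx]
      ring) (by
      obtain ⟨x, hx⟩ := h3
      refine ⟨-x, ?_⟩
      push_cast
      rw [map_neg, mul_neg, hx]
      ring)
    refine ⟨y, ?_, M, M', ⟨?_, ?_, hM2, ?_⟩, ?_⟩
    · intro v
      have h4 := (hz1 v (by rw [hre]; exact v.2)).1
      rw [hre] at h4
      rw [hy]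
      exact h4
    · have h4 : M.map (fun x : ℤ => (x : ℚ)) = R (gam c κ b) := by
        ext i j
        exact hM1 i j
      have h5 : M'.map (fun x : ℤ => (x : ℚ)) = R (gam c κ (c b.1, -b.2)) := by
        ext i j
        exact hM1' i j
      have h6 : (M * M').map (fun x : ℤ => (x : ℚ)) = 1 := by
        have h7 : (M * M').map (fun x : ℤ => (x : ℚ)) =
            M.map (fun x : ℤ => (x : ℚ)) * M'.map (fun x : ℤ => (x : ℚ)) :=
          Matrix.map_mul (f := Int.castRingHom ℚ)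
        rw [h7, h4, h5, ← h.mul_eq, gam_inv c κ h.hcj2 h.hκ hb, h.one_eq]
      ext i j
      have h8 := congrFun (congrFun h6 i) j
      rw [Matrix.map_apply] at h8
      have h9 : (((1 : Matrix (MM ι) (MM ι) ℤ) i j : ℤ) : ℚ) = (1 : Matrix (MM ι) (MM ι) ℚ) i j := by
        simp [Matrix.one_apply]
      rw [← h9] at h8
      exact_mod_cast h8
    · intro w w'
      rw [mI_eq hM1, mI_eq hM1]
      exact h.En_act hM w w'
    · intro e
      rw [mI_eq hM1, hxy]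
      exact h.mem_act hM hdet hyX e
    · obtain ⟨h4, h5⟩ := h.act_p (gam c κ b) v0
      refine ⟨cc (s v0 (gam c κ b 1 1)), -cc (s v0 (gam c κ b 1 0)),
        -cc (s v0 (gam c κ b 0 1)), cc (s v0 (gam c κ b 0 0)), ?_, ?_, ?_⟩
      · have h6 : s v0 ((gam c κ b).det) = 1 := by rw [det_gam, hb, map_one]
        have h7 := congrArg cc h6
        rw [Matrix.det_fin_two] at h7
        simp only [map_sub, map_mul, map_one] at h7
        linear_combination h7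
      · have h6 : s v0 ((gam c κ b).det) = 1 := by rw [det_gam, hb, map_one]
        have h7 := congrArg cc h6
        rw [Matrix.det_fin_two] at h7
        simp only [map_sub, map_mul, map_one] at h7
        rw [mI_eq hM1, mI_eq hM1, h4, h5]
        exact (plane_inv _ _ _ _ _ _ h7).1
      · have h6 : s v0 ((gam c κ b).det) = 1 := by rw [det_gam, hb, map_one]
        have h7 := congrArg cc h6
        rw [Matrix.det_fin_two] at h7
        simp only [map_sub, map_mul, map_one] at h7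
        rw [mI_eq hM1, mI_eq hM1, h4, h5]
        exact (plane_inv _ _ _ _ _ _ h7).2

/-! ### the dense orbit -/

/-- the point `gam b . 0` -/
noncomputable def xb (s : ι → K →+* ℂ) (kr : ι → ℝ) (b : K × K) : Pl kr → ℂ :=
  fun v => s v b.2 / s v b.1

theorem Ari.b1_ne (h : Ari c s κ a kr T R) {b : K × K} (hb : nrd c κ b = 1) (v : Pl kr) :
    s v b.1 ≠ 0 := by
  intro h0
  have h1 := h.nrd_real v b
  rw [hb, map_one, h0, norm_zero] at h1
  have h2 : (1 : ℝ) = 0 ^ 2 - kr v * ‖s v b.2‖ ^ 2 := by exact_mod_cast h1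
  nlinarith [mul_nonneg v.2.le (sq_nonneg ‖s v b.2‖)]

theorem Ari.xb_eq (h : Ari c s κ a kr T R) {b : K × K} (hb : nrd c κ b = 1) :
    xb s kr b = mx (fun v => (gam c κ b).map (s v)) (0 : Pl kr → ℂ) := by
  funext v
  simp only [xb, mx, mob, Matrix.map_apply, gam_00, gam_10, Pi.zero_apply, mul_zero, add_zero]

theorem zero_mem_XX : (0 : Pl kr → ℂ) ∈ XX kr := by
  intro v
  simp

theorem Ari.xb_mem (h : Ari c s κ a kr T R) {b : K × K} (hb : nrd c κ b = 1) :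
    xb s kr b ∈ XX kr := by
  rw [h.xb_eq hb]
  exact mx_mem (h.isU_gam hb) zero_mem_XX

theorem Ari.dense [Nonempty ι] (h : Ari c s κ a kr T R) :
    XX kr ⊆ closure {x | ∃ b : K × K, nrd c κ b = 1 ∧ x = xb s kr b} := by
  intro x hx
  rw [Metric.mem_closure_iff]
  intro ε hε
  obtain ⟨b, hb, -, h1⟩ := dense_norm_one c h.hcj2 s h.hcj
    (Pool.Agent.Helper75.SH.denseRange_K s h.hs h.hcard) κ h.hκ kr h.hkr (xt x) (by
      intro v
      by_cases hv : 0 < kr v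
      · exact xt_lt hx v hv
      · unfold xt
        rw [dif_neg hv]
        simp) ε hε
  refine ⟨xb s kr b, ⟨b, hb, rfl⟩, ?_⟩
  rw [dist_comm, dist_pi_lt_iff hε]
  intro v
  rw [dist_eq_norm]
  have h2 := h1 v
  rw [xt_pl] at h2
  exact h2

/-! ### the rotation `diag (ζ, 1)` in the basis `(1, β)`, `(κ c β, 1)` -/

theorem dg_map (c : K →+* K) (s : K →+* ℂ) (hcj : ∀ x, s (c x) = cc (s x)) (κ : K) (k : ℝ)
    (hk : s κ = (k : ℂ)) (β ζ : K) : (dg c κ β ζ).map s = dg cc (k : ℂ) (s β) (s ζ) := by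
  ext i j
  fin_cases i <;> fin_cases j <;> simp [dg, hcj, hk]

/-- data of the rotation -/
structure Rot (c : K →+* K) (s : ι → K →+* ℂ) (κ : K) (kr : ι → ℝ) (β ζ : K) : Prop where
  hz : ∀ v, ‖s v ζ‖ = 1
  hz1 : ∀ v, s v ζ ≠ 1
  hb : ∀ v, 1 - kr v * ‖s v β‖ ^ 2 ≠ 0

variable {β ζ : K}

/-- the fixed point -/
noncomputable def xf (s : ι → K →+* ℂ) (kr : ι → ℝ) (β : K) : Pl kr → ℂ :=
  fun v => fixz (kr v) (s v β)

theorem Rot.mem (hr : Rot c s κ kr β ζ) : xf s kr β ∈ XX kr :=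
  fun v => fixz_mem v.2 (hr.hb v)

theorem Ari.isU_dg (h : Ari c s κ a kr T R) (hr : Rot c s κ kr β ζ) (v : ι) :
    IsU (kr v) ((dg c κ β ζ).map (s v)) := by
  rw [dg_map c (s v) (h.hcj v) κ (kr v) (h.hkr v)]
  exact dg_isU (hr.hb v) (hr.hz v)

theorem Ari.det_dg [Nonempty ι] (h : Ari c s κ a kr T R) (hr : Rot c s κ kr β ζ) :
    (dg c κ β ζ).det ≠ 0 := by
  obtain ⟨v⟩ := ‹Nonempty ι›
  intro h0
  have h1 : ((dg c κ β ζ).map (s v)).det = 0 := by
    rw [← RingHom.mapMatrix_apply, ← RingHom.map_det, h0, map_zero]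
  rw [dg_map c (s v) (h.hcj v) κ (kr v) (h.hkr v),
    Pool.Agent.Helper94.SH.det_dg _ _ _ _ (one_sub_ne (hr.hb v))] at h1
  have h2 := hr.hz v
  rw [h1, norm_zero] at h2
  exact zero_ne_one h2

theorem Rot.z0 (hr : Rot c s κ kr β ζ) (v : ι) : s v ζ ≠ 0 := by
  intro h0
  have h2 := hr.hz v
  rw [h0, norm_zero] at h2
  exact zero_ne_one h2

theorem Ari.fix (h : Ari c s κ a kr T R) (hr : Rot c s κ kr β ζ) :
    mx (fun v => (dg c κ β ζ).map (s v)) (xf s kr β) = xf s kr β := by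
  funext v
  simp only [mx, xf]
  rw [dg_map c (s v) (h.hcj v) κ (kr v) (h.hkr v)]
  exact mob_dg_fixz (hr.hb v) (hr.z0 v)

theorem Ari.fix_fderiv (h : Ari c s κ a kr T R) (hr : Rot c s κ kr β ζ) (t : Pl kr → ℂ)
    (ht : fderiv ℂ (mx fun v => (dg c κ β ζ).map (s v)) (xf s kr β) t = t) : t = 0 := by
  refine fix_mx (m := fun v : Pl kr => if 0 < 1 - kr v * ‖s v β‖ ^ 2 then (s v ζ)⁻¹ else s v ζ)
    (fun v => ?_) (fun v => ?_) t ht
  · rw [dg_map c (s v) (h.hcj v) κ (kr v) (h.hkr v)]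
    exact hasDerivAt_dg_fixz (hr.hb v) (hr.z0 v)
  · split_ifs
    · rw [ne_eq, inv_eq_one]
      exact hr.hz1 v
    · exact hr.hz1 v

/-- the orbit is stable -/
theorem Ari.orbit [Nonempty ι] (h : Ari c s κ a kr T R) (hr : Rot c s κ kr β ζ) {b : K × K}
    (hb : nrd c κ b = 1) :
    nrd c κ (Pool.Agent.Helper94.SH.act (dg c κ β ζ) b) = 1 ∧
      mx (fun v => (dg c κ β ζ).map (s v)) (xb s kr b) = xb s kr (Pool.Agent.Helper94.SH.act (dg c κ β ζ) b) := by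
  constructor
  · obtain ⟨v⟩ := ‹Nonempty ι›
    refine (s v).injective ?_
    rw [map_one, h.nrd_real]
    have h1 := (h.isU_dg hr v).norm (s v b.1) (s v b.2)
    have h2 := h.nrd_real v b
    rw [hb, map_one] at h2
    have h3 : (1 : ℝ) = ‖s v b.1‖ ^ 2 - kr v * ‖s v b.2‖ ^ 2 := by exact_mod_cast h2
    rw [← h3] at h1
    simp only [Matrix.map_apply, ← map_mul, ← map_add] at h1
    rw [Pool.Agent.Helper94.SH.act, h1]
    norm_num
  · funext v
    have h1 := h.b1_ne hb v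
    simp only [mx, xb, mob, Matrix.map_apply, Pool.Agent.Helper94.SH.act, map_add, map_mul]
    have h2 : ∀ x y : ℂ, x + y * (s v b.2 / s v b.1) = (x * s v b.1 + y * s v b.2) / s v b.1 := by
      intro x y
      field_simp
    rw [h2, h2, div_div_div_cancel_right₀ h1]

/-- **block X**: the family theorem for the arithmetic family -/
theorem Ari.final [Nonempty ι] (h : Ari c s κ a kr T R) (hr : Rot c s κ kr β ζ) (v0 : ι)
    (hv0 : kr v0 < 0) (P : ℂ)
    (hOA : ∀ b : K × K, nrd c κ b = 1 → ∀ t a : MM ι → ℚ,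
      Pool.Agent.Helper96.SH.GF (ZX T kr (xb s kr b)) (cQ a) ≠ 0 →
      IsAlgebraic ℚ (Pool.Agent.Helper96.SH.GF (ZX T kr (xb s kr b)) (cQ t) /
        Pool.Agent.Helper96.SH.GF (ZX T kr (xb s kr b)) (cQ a)))
    (hOB : ∀ b : K × K, nrd c κ b = 1 → ∀ t1 t2 a : MM ι → ℚ,
      Pool.Agent.Helper96.SH.GF (ZX T kr (xb s kr b)) (cQ a) ≠ 0 →
      IsAlgebraic ℚ (Dt (Pool.Agent.Helper96.SH.E0 (ι × Fin 2))
        (Pool.Agent.Helper96.SH.GF (ZX T kr (xb s kr b))) (p1 T v0) (p2 T v0) (cQ t1) (cQ t2) /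
        (P * Pool.Agent.Helper96.SH.GF (ZX T kr (xb s kr b)) (cQ a) ^ 2))) :
    (∀ t a : MM ι → ℚ, Pool.Agent.Helper96.SH.GF (ZX T kr (xf s kr β)) (cQ a) ≠ 0 →
      IsAlgebraic ℚ (Pool.Agent.Helper96.SH.GF (ZX T kr (xf s kr β)) (cQ t) /
        Pool.Agent.Helper96.SH.GF (ZX T kr (xf s kr β)) (cQ a))) ∧
    ∀ t1 t2 a : MM ι → ℚ, Pool.Agent.Helper96.SH.GF (ZX T kr (xf s kr β)) (cQ a) ≠ 0 →
      IsAlgebraic ℚ (Dt (Pool.Agent.Helper96.SH.E0 (ι × Fin 2))
        (Pool.Agent.Helper96.SH.GF (ZX T kr (xf s kr β))) (p1 T v0) (p2 T v0) (cQ t1) (cQ t2) /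
        (P * Pool.Agent.Helper96.SH.GF (ZX T kr (xf s kr β)) (cQ a) ^ 2)) := by
  have hdu : IsUnit (dg c κ β ζ).det := isUnit_iff_ne_zero.2 (h.det_dg hr)
  refine family (tfam h.ha h.hk0 h.coo) (xf s kr β) hr.mem
    (mx fun v => (dg c κ β ζ).map (s v)) (fun x hx => mx_mem (h.isU_dg hr) hx)
    (diff_mx (h.isU_dg hr)) (h.fix hr) (h.fix_fderiv hr) (R (dg c κ β ζ)) (R (dg c κ β ζ)⁻¹)
    ?_ (h.En_act (h.isU_dg hr)) (fun x hx e => h.mem_act (h.isU_dg hr) (h.det_dg hr) hx e)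
    (fun k x => fr T kr x k) (fun k => (diff_fr k).differentiableAt)
    (fun k x hx => fr_mem h.ha h.hk0 h.coo hx k) (fun v hv => imm h.ha h.hk0 h.coo hr.mem v hv)
    (p1 T v0) (p2 T v0) (h.cpt v0 hv0) {x | ∃ b : K × K, nrd c κ b = 1 ∧ x = xb s kr b}
    h.dense ?_ ?_ P ?_
  · rw [← h.mul_eq, Matrix.mul_nonsing_inv _ hdu, h.one_eq]
  · rintro x ⟨b, hb, rfl⟩
    exact ⟨_, (h.orbit hr hb).1, (h.orbit hr hb).2⟩
  · rintro x ⟨b, hb, rfl⟩
    exact hOA b hb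
  · rintro x ⟨b, hb, rfl⟩
    exact hOB b hb

end Pool.Agent.Helper94.SX
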