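import Pool.Agent.Helper94.SX.Xf

/-!
PROJECT SH / ALLQ (MP_274814_nt), block X: the second splitting.
-/

set_option autoImplicit false

namespace Pool.Agent.Helper94.SX

open Complex Set NumberField Pool.Agent.Helper94.SH
open Pool.Agent.Helper49.SH (Iq Ns KForm IsEps Eb dsum pb Np Pol jl jr Inv2 AlgAct)
open Pool.Agent.Helper34.LT (zt)
open Pool.Agent.Helper34.LU (UU mem_UU)
open LTG (HS)

variable {K : Type} [Field K] [NumberField K]

variable {q : ℕ} {s1 s2 : Finset ℕ} {ξ1 ξ2 : Polynomial ℚ} {c : K →+* K}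
  {s : Pq q s1 → K →+* ℂ} {κ : K} {ζ : K} {a kr : Pq q s1 → ℝ}
  {T : (MM (Pq q s1) → ℂ) ≃ₗ[ℂ] (Pq q s1 → PC)}
  {R : Matrix (Fin 2) (Fin 2) K → Matrix (MM (Pq q s1)) (MM (Pq q s1)) ℚ}
  {S : Iq q ⊕ Iq q → MM (Pq q s1) → ℚ} {S' : MM (Pq q s1) → Iq q ⊕ Iq q → ℚ}

/-! ### polarisations from signs -/

theorem sum_UU_sub (f : ℕ → ℂ) : ∑ u ∈ UU q, f (q - u) = ∑ u ∈ UU q, f u := by
  refine Finset.sum_nbij' (fun u => q - u) (fun u => q - u) ?_ ?_ ?_ ?_ ?_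
  · intro u hu
    exact Pool.Agent.Helper53.SH.UU_sub hu
  · intro u hu
    exact Pool.Agent.Helper53.SH.UU_sub hu
  · intro u hu
    exact Pool.Agent.Helper53.SH.UU_sub_sub hu
  · intro u hu
    exact Pool.Agent.Helper53.SH.UU_sub_sub hu
  · intro u _
    rfl

theorem finrank_Ns' (hq : 2 ≤ q) {t : Finset ℕ} (ht : HS q t) :
    2 * Module.finrank ℂ (Ns q t) = q.totient := by
  classical
  obtain ⟨f, hf⟩ : ∃ f : (Iq q → ℂ) →ₗ[ℂ] (t → ℂ), f = LinearMap.pi fun v : t =>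
      Pool.Agent.Helper53.SH.emL q v := ⟨_, rfl⟩
  have hfa : ∀ w (v : t), f w v = Pool.Agent.Helper49.SH.em q v w := by
    intro w v
    rw [hf]
    rfl
  have hsurj : Function.Surjective f := by
    intro y
    refine ⟨∑ u ∈ t, (if h : u ∈ t then y ⟨u, h⟩ else 0) • Pool.Agent.Helper53.SH.ep q u, ?_⟩
    funext v
    rw [hfa, Pool.Agent.Helper53.SH.em_sum_ep q hq (fun u => if h : u ∈ t then y ⟨u, h⟩ else 0) t v
      (hs_uu ht v.2), if_pos v.2, dif_pos v.2]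
  have hker : LinearMap.ker f = Ns q t := by
    ext w
    rw [LinearMap.mem_ker]
    constructor
    · intro h1 u hu
      have h2 := congrFun h1 ⟨u, hu⟩
      rw [hfa] at h2
      exact h2
    · intro h1
      funext v
      rw [hfa]
      exact h1 v v.2
  have h1 := LinearMap.finrank_range_add_finrank_ker f
  rw [LinearMap.range_eq_top.2 hsurj, finrank_top, hker, Module.finrank_fintype_fun_eq_card,
    Module.finrank_fintype_fun_eq_card, Fintype.card_fin, Fintype.card_coe] at h1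
  have h2 := LTG.card_HS q t ht
  omega

theorem Eb_single {ι : Type} [Fintype ι] [DecidableEq ι] (E : ι → ι → ℚ) (i j : ι) :
    Eb E (Pi.single i 1) (Pi.single j 1) = (E i j : ℂ) := by
  simp only [Eb, Pi.single_apply, mul_ite, mul_one, mul_zero, Finset.sum_ite_eq',
    Finset.mem_univ, if_true]

theorem pol_of_sign [NeZero q] {t : Finset ℕ} (ht : HS q t) {ξ : Polynomial ℚ}
    {E : Iq q → Iq q → ℚ} (hK : KForm q ξ E)
    (hb : ∀ u ∈ UU q, u ∉ t → ∃ b : ℝ, 0 < b ∧ Polynomial.aeval (zt q ^ u) ξ = I * (b : ℂ)) :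
    Pol E (Ns q t) := by
  have h3 := ht.three
  have hanti : ∀ u ∈ UU q, Polynomial.aeval (zt q ^ (q - u)) ξ =
      -Polynomial.aeval (zt q ^ u) ξ := by
    intro u hu
    obtain ⟨h1, h2, h4, h5, h6, h7⟩ := uu_bounds h3 hu
    by_cases hut : u ∈ t
    · obtain ⟨b, -, hb2⟩ := hb (q - u) h5 ((hs_iff ht hu).1 hut)
      have h8 := val_conj (q := q) (u := q - u) (by omega) ξ
      rw [h6, hb2] at h8
      rw [h8, hb2, map_mul, Complex.conj_I, Complex.conj_ofReal]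
      ring
    · obtain ⟨b, -, hb2⟩ := hb u hu hut
      rw [val_conj h2.le, hb2, map_mul, Complex.conj_I, Complex.conj_ofReal]
      ring
  refine ⟨?_, ?_, ?_, ?_⟩
  · intro i j
    have h1 : Eb E (Pi.single i 1) (Pi.single j 1) = -Eb E (Pi.single j 1) (Pi.single i 1) := by
      rw [hK, hK, ← sum_UU_sub, ← Finset.sum_neg_distrib]
      refine Finset.sum_congr rfl fun u hu => ?_
      rw [hanti u hu, Pool.Agent.Helper53.SH.UU_sub_sub hu]
      ring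
    rw [Eb_single, Eb_single] at h1
    exact_mod_cast h1
  · intro e he e' he'
    rw [hK]
    refine Finset.sum_eq_zero fun u hu => ?_
    by_cases hut : u ∈ t
    · rw [he u hut, mul_zero, zero_mul]
    · have h1 : q - u ∈ t := by
        have h2 := (hs_iff ht hu).not.1 hut
        rwa [not_not] at h2
      rw [he' _ h1, mul_zero]
  · intro e he he0
    rw [hK, Finset.mul_sum, ← Finset.sum_neg_distrib, Complex.re_sum]
    have hterm : ∀ u ∈ UU q, u ∉ t → ∃ b : ℝ, 0 < b ∧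
        (-(I * (Polynomial.aeval (zt q ^ u) ξ * Pool.Agent.Helper49.SH.em q u e *
          Pool.Agent.Helper49.SH.em q (q - u) (Pool.Agent.Helper49.SH.cj e)))).re =
          b * ‖Pool.Agent.Helper49.SH.em q u e‖ ^ 2 := by
      intro u hu hut
      obtain ⟨b, hb1, hb2⟩ := hb u hu hut
      refine ⟨b, hb1, ?_⟩
      rw [← em_conj (uu_bounds h3 hu).2.1.le, hb2]
      have h1 : -(I * (I * (b : ℂ) * Pool.Agent.Helper49.SH.em q u e *
          (starRingEnd ℂ) (Pool.Agent.Helper49.SH.em q u e))) =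
          ((b * ‖Pool.Agent.Helper49.SH.em q u e‖ ^ 2 : ℝ) : ℂ) := by
        rw [mul_assoc (I * (b : ℂ)), Complex.mul_conj, Complex.normSq_eq_norm_sq]
        push_cast
        linear_combination (-(b : ℂ) * ‖Pool.Agent.Helper49.SH.em q u e‖ ^ 2) * Complex.I_mul_I
      rw [h1, Complex.ofReal_re]
    have hnn : ∀ u ∈ UU q, 0 ≤ (-(I * (Polynomial.aeval (zt q ^ u) ξ *
        Pool.Agent.Helper49.SH.em q u e *
          Pool.Agent.Helper49.SH.em q (q - u) (Pool.Agent.Helper49.SH.cj e)))).re := by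
      intro u hu
      by_cases hut : u ∈ t
      · rw [he u hut]
        simp
      · obtain ⟨b, hb1, hb2⟩ := hterm u hu hut
        rw [hb2]
        positivity
    obtain ⟨u, hu, hue⟩ : ∃ u ∈ UU q, Pool.Agent.Helper49.SH.em q u e ≠ 0 := by
      by_contra h1
      push Not at h1
      exact he0 (Pool.Agent.Helper53.SH.em_inj q (by omega) e h1)
    refine Finset.sum_pos' hnn ⟨u, hu, ?_⟩
    have hut : u ∉ t := fun h1 => hue (he u h1)
    obtain ⟨b, hb1, hb2⟩ := hterm u hu hut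
    rw [hb2]
    have := norm_pos_iff.2 hue
    positivity
  · rw [Fintype.card_fin]
    exact finrank_Ns' (by omega) ht

/-! ### one place -/

/-- the basis of the second splitting -/
def FF (c : K →+* K) (κ β : K) : Matrix (Fin 2) (Fin 2) K := !![1, κ * c β; β, 1]

/-- the same at one place -/
noncomputable def F1 (κ : ℝ) (β : ℂ) : Matrix (Fin 2) (Fin 2) ℂ := !![1, κ * cc β; β, 1]

theorem FF_map (c : K →+* K) (s : K →+* ℂ) (hcj : ∀ x, s (c x) = cc (s x)) (κ : K) (k : ℝ)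
    (hk : s κ = (k : ℂ)) (β : K) : (FF c κ β).map s = F1 k (s β) := by
  ext i j
  fin_cases i <;> fin_cases j <;> simp [FF, F1, hcj, hk]

theorem nn_eq (κ : ℝ) (β : ℂ) : ((1 - κ * ‖β‖ ^ 2 : ℝ) : ℂ) = 1 - κ * (β * cc β) := by
  rw [Complex.mul_conj, Complex.normSq_eq_norm_sq]
  push_cast
  ring

theorem e1_F1 (a κ : ℝ) (β : ℂ) (u w : PC) : e1 a κ (a1 (F1 κ β) u) (a1 (F1 κ β) w) =
    e1 (a * (1 - κ * ‖β‖ ^ 2)) κ u w := by
  have h1 := nn_eq κ β
  unfold e1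
  rw [Complex.ofReal_mul, h1]
  simp [a1, act, F1]
  ring

theorem a1_F1 (κ : ℝ) (β : ℂ) (u : PC) : a1 (F1 κ β) u =
    ((u.1.1 + κ * cc β * u.1.2, β * u.1.1 + u.1.2), (u.2.1 + κ * β * u.2.2, cc β * u.2.1 + u.2.2)) := by
  simp [a1, act, F1]

theorem n1_F1_pos {κ : ℝ} {β : ℂ} (hκ : 0 < κ) (hn : 1 - κ * ‖β‖ ^ 2 ≠ 0) (u : PC) :
    n1 κ β (a1 (F1 κ β) u) ↔ u.1.2 = 0 ∧ u.2.1 = 0 := by
  have hnc : (1 : ℂ) - κ * (β * cc β) ≠ 0 := by
    rw [← nn_eq]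
    exact_mod_cast hn
  rw [a1_F1]
  unfold n1
  simp only [hκ, forall_const, not_true_eq_false, IsEmpty.forall_iff, and_true]
  constructor
  · rintro ⟨h1, h2⟩
    constructor
    · refine (mul_eq_zero.1 (?_ : (1 - κ * (β * cc β)) * u.1.2 = 0)).resolve_left hnc
      linear_combination h1
    · refine (mul_eq_zero.1 (?_ : (1 - κ * (β * cc β)) * u.2.1 = 0)).resolve_left hnc
      linear_combination h2
  · rintro ⟨h1, h2⟩
    rw [h1, h2]
    constructor <;> ring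

theorem n1_F1_neg {κ : ℝ} {β : ℂ} (hκ : 0 < κ) (hn : 1 - κ * ‖β‖ ^ 2 ≠ 0) (hβ : β ≠ 0) (u : PC) :
    n1 κ ((κ : ℂ) * cc β)⁻¹ (a1 (F1 κ β) u) ↔ u.1.1 = 0 ∧ u.2.2 = 0 := by
  have hnc : (1 : ℂ) - κ * (β * cc β) ≠ 0 := by
    rw [← nn_eq]
    exact_mod_cast hn
  have hκc : (κ : ℂ) ≠ 0 := by exact_mod_cast hκ.ne'
  have hbc : cc β ≠ 0 := (map_ne_zero cc).2 hβ
  have hz : ((κ : ℂ) * cc β)⁻¹ * ((κ : ℂ) * cc β) = 1 :=
    inv_mul_cancel₀ (mul_ne_zero hκc hbc)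
  obtain ⟨z, hzd⟩ : ∃ z, z = ((κ : ℂ) * cc β)⁻¹ := ⟨_, rfl⟩
  rw [← hzd] at hz ⊢
  rw [a1_F1]
  unfold n1
  simp only [hκ, forall_const, not_true_eq_false, IsEmpty.forall_iff, and_true]
  constructor
  · rintro ⟨h1, h2⟩
    constructor
    · refine (mul_eq_zero.1 (?_ : (1 - κ * (β * cc β)) * u.1.1 = 0)).resolve_left hnc
      linear_combination (-(κ * cc β)) * h1 + (u.1.1 + κ * cc β * u.1.2) * (-hz)
    · refine (mul_eq_zero.1 (?_ : (1 - κ * (β * cc β)) * u.2.2 = 0)).resolve_left hnc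
      linear_combination (-(cc β)) * h2 + (cc β * u.2.1 + u.2.2) * (-hz)
  · rintro ⟨h1, h2⟩
    rw [h1, h2]
    constructor
    · linear_combination (-u.1.2) * hz
    · linear_combination (-u.2.1) * hz

theorem n1_F1_flat {κ : ℝ} {β : ℂ} (hκ : ¬ 0 < κ) (hn : 1 - κ * ‖β‖ ^ 2 ≠ 0) (z : ℂ) (u : PC) :
    n1 κ z (a1 (F1 κ β) u) ↔ u.2.1 = 0 ∧ u.2.2 = 0 := by
  have hnc : (1 : ℂ) - κ * (β * cc β) ≠ 0 := by
    rw [← nn_eq]
    exact_mod_cast hn
  rw [a1_F1]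
  unfold n1
  simp only [hκ, IsEmpty.forall_iff, not_false_eq_true, forall_const, true_and]
  constructor
  · intro h0
    have h1 := congrArg Prod.fst h0
    have h2 := congrArg Prod.snd h0
    simp only [Prod.fst_zero, Prod.snd_zero] at h1 h2
    constructor
    · refine (mul_eq_zero.1 (?_ : (1 - κ * (β * cc β)) * u.2.1 = 0)).resolve_left hnc
      linear_combination h1 - κ * β * h2
    · refine (mul_eq_zero.1 (?_ : (1 - κ * (β * cc β)) * u.2.2 = 0)).resolve_left hnc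
      linear_combination h2 - cc β * h1
  · rintro ⟨h1, h2⟩
    rw [h1, h2]
    refine Prod.ext ?_ ?_ <;> simp

/-! ### the second splitting -/

/-- membership for general types -/
theorem mem_np_gen (hs1 : HS q s1) {t1 t2 : Finset ℕ} (ht1 : HS q t1) (ht2 : HS q t2)
    (y : Iq q ⊕ Iq q → ℂ) :
    y ∈ Np (Ns q t1) (Ns q t2) ↔ ∀ v : Pq q s1,
      (((v : ℕ) ∈ t1 → (tp q v y).1.1 = 0) ∧ ((v : ℕ) ∉ t1 → (tp q v y).2.1 = 0)) ∧
      (((v : ℕ) ∈ t2 → (tp q v y).1.2 = 0) ∧ ((v : ℕ) ∉ t2 → (tp q v y).2.2 = 0)) := by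
  constructor
  · rintro ⟨h1, h2⟩ v
    refine ⟨⟨fun h3 => h1 _ h3, fun h3 => h1 _ ?_⟩, ⟨fun h3 => h2 _ h3, fun h3 => h2 _ ?_⟩⟩
    · have h4 := (hs_iff ht1 (pq_mem v).1).not.1 h3
      rwa [not_not] at h4
    · have h4 := (hs_iff ht2 (pq_mem v).1).not.1 h3
      rwa [not_not] at h4
  · intro hy
    refine ⟨fun u hu => ?_, fun u hu => ?_⟩
    · rcases place_cases hs1 (hs_uu ht1 hu) with ⟨v, hv⟩ | ⟨v, hv⟩
      · rw [hv]
        exact (hy v).1.1 (hv ▸ hu)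
      · rw [hv]
        refine (hy v).1.2 fun h3 => ?_
        exact (hs_iff ht1 (pq_mem v).1).1 h3 (hv ▸ hu)
    · rcases place_cases hs1 (hs_uu ht2 hu) with ⟨v, hv⟩ | ⟨v, hv⟩
      · rw [hv]
        exact (hy v).2.1 (hv ▸ hu)
      · rw [hv]
        refine (hy v).2.2 fun h3 => ?_
        exact (hs_iff ht2 (pq_mem v).1).1 h3 (hv ▸ hu)

theorem jl_single {α β : Type} [DecidableEq α] [DecidableEq β] (i : α) :
    (jl (Pi.single i (1 : ℂ)) : α ⊕ β → ℂ) = Pi.single (Sum.inl i) 1 := by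
  funext x
  rcases x with x | x
  · by_cases hx : x = i
    · subst hx
      simp [jl]
    · simp [jl, hx]
  · simp [jl]

theorem jr_single {α β : Type} [DecidableEq α] [DecidableEq β] (i : β) :
    (jr (Pi.single i (1 : ℂ)) : α ⊕ β → ℂ) = Pi.single (Sum.inr i) 1 := by
  funext x
  rcases x with x | x
  · simp [jr]
  · by_cases hx : x = i
    · subst hx
      simp [jr]
    · simp [jr, hx]

theorem dsum_of {G : Iq q ⊕ Iq q → Iq q ⊕ Iq q → ℚ} (h1 : ∀ w w', Eb G (jl w) (jr w') = 0)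
    (h2 : ∀ w w', Eb G (jr w) (jl w') = 0) :
    G = dsum (fun i j => G (Sum.inl i) (Sum.inl j)) (fun i j => G (Sum.inr i) (Sum.inr j)) := by
  funext x y
  rcases x with x | x <;> rcases y with y | y
  · rfl
  · have h3 := h1 (Pi.single x 1) (Pi.single y 1)
    rw [jl_single, jr_single, Eb_single] at h3
    change G (Sum.inl x) (Sum.inr y) = 0
    exact_mod_cast h3
  · have h3 := h2 (Pi.single x 1) (Pi.single y 1)
    rw [jl_single, jr_single, Eb_single] at h3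
    change G (Sum.inr x) (Sum.inl y) = 0
    exact_mod_cast h3
  · rfl

theorem Eb_dsum_jl (E E' : Iq q → Iq q → ℚ) (w w' : Iq q → ℂ) :
    Eb (dsum E E') (jl w) (jl w') = Eb E w w' := by
  rw [Eb_dsum]
  have h1 : Eb E' (fun i => (jl w : Iq q ⊕ Iq q → ℂ) (Sum.inr i))
      (fun i => (jl w' : Iq q ⊕ Iq q → ℂ) (Sum.inr i)) = 0 := by
    simp [Eb, jl]
  rw [h1, add_zero]
  rfl

theorem Eb_dsum_jr (E E' : Iq q → Iq q → ℚ) (w w' : Iq q → ℂ) :
    Eb (dsum E E') (jr w) (jr w') = Eb E' w w' := by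
  rw [Eb_dsum]
  have h1 : Eb E (fun i => (jr w : Iq q ⊕ Iq q → ℂ) (Sum.inl i))
      (fun i => (jr w' : Iq q ⊕ Iq q → ℂ) (Sum.inl i)) = 0 := by
    simp [Eb, jr]
  rw [h1, zero_add]
  rfl

theorem tp_jl' (v : ℕ) (w : Iq q → ℂ) : tp q v (jl w) =
    ((Pool.Agent.Helper49.SH.em q v w, 0), (Pool.Agent.Helper49.SH.em q (q - v) w, 0)) := by
  have h0 : ∀ v, Pool.Agent.Helper49.SH.em q v (0 : Iq q → ℂ) = 0 := by
    intro v
    simp [Pool.Agent.Helper49.SH.em]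
  have h1 : (fun i => (jl w : Iq q ⊕ Iq q → ℂ) (Sum.inr i)) = 0 := rfl
  unfold tp
  rw [h1, h0, h0]
  rfl

theorem tp_jr' (v : ℕ) (w : Iq q → ℂ) : tp q v (jr w) =
    ((0, Pool.Agent.Helper49.SH.em q v w), (0, Pool.Agent.Helper49.SH.em q (q - v) w)) := by
  have h0 : ∀ v, Pool.Agent.Helper49.SH.em q v (0 : Iq q → ℂ) = 0 := by
    intro v
    simp [Pool.Agent.Helper49.SH.em]
  have h1 : (fun i => (jr w : Iq q ⊕ Iq q → ℂ) (Sum.inl i)) = 0 := rfl
  unfold tp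
  rw [h1, h0, h0]
  rfl

/-- data of the second splitting -/
structure Sec (q : ℕ) (s1 t1 t2 : Finset ℕ) (s : Pq q s1 → K →+* ℂ) (kr : Pq q s1 → ℝ) (β : K) :
    Prop where
  ht1 : HS q t1
  ht2 : HS q t2
  pos : ∀ v : Pq q s1, (v : ℕ) ∉ t1 → 0 < 1 - kr v * ‖s v β‖ ^ 2
  neg : ∀ v : Pq q s1, (v : ℕ) ∈ t1 → 1 - kr v * ‖s v β‖ ^ 2 < 0
  flat : ∀ v : Pq q s1, ¬ 0 < kr v → (v : ℕ) ∉ t1 ∧ (v : ℕ) ∉ t2
  one : ∀ v : Pq q s1, 0 < kr v → ((v : ℕ) ∈ t1 ↔ (v : ℕ) ∉ t2)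

variable {t1 t2 : Finset ℕ} {β : K}

theorem Sec.nn (hS : Sec q s1 t1 t2 s kr β) (v : Pq q s1) : 1 - kr v * ‖s v β‖ ^ 2 ≠ 0 := by
  by_cases h1 : (v : ℕ) ∈ t1
  · exact (hS.neg v h1).ne
  · exact (hS.pos v h1).ne'

theorem Cyc.mem_sec (h : Cyc q s1 s2 ξ1 ξ2 c s κ ζ a kr T R S S') (hS : Sec q s1 t1 t2 s kr β)
    (w : Iq q ⊕ Iq q → ℂ) (hx : xf s kr β ∈ XX kr) :
    w ∈ Np (Ns q t1) (Ns q t2) ↔ Pool.Agent.Helper49.SH.mv S'
      (Pool.Agent.Helper49.SH.mv (QM R S S' (FF c κ β)) w) ∈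
        Pool.Agent.Helper96.SH.NZ (ZX T kr (xf s kr β)) := by
  rw [mem_NX h.ari.ha h.ari.hk0 h.ari.coo hx, mem_np_gen h.hs1 hS.ht1 hS.ht2]
  refine forall_congr' fun v => ?_
  rw [h.coord, h.inv1, h.tp_QM, FF_map c (s v) (h.ari.hcj v) κ (kr v) (h.ari.hkr v)]
  by_cases hk : 0 < kr v
  · have h1 : xt (xf s kr β) v = fixz (kr v) (s v β) := xt_pl _ ⟨v, hk⟩
    rw [h1]
    by_cases h2 : (v : ℕ) ∈ t1
    · have h3 := (hS.one v hk).1 h2
      have h4 := hS.neg v h2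
      have hβ : s v β ≠ 0 := by
        intro h5
        rw [h5, norm_zero] at h4
        norm_num at h4
      rw [fixz, if_neg (not_lt.2 h4.le), n1_F1_neg hk h4.ne hβ]
      simp only [h2, h3, true_imp_iff, not_true_eq_false, not_false_eq_true, false_imp_iff,
        and_true, true_and]
    · have h3 : (v : ℕ) ∈ t2 := by
        by_contra h5
        exact h2 ((hS.one v hk).2 h5)
      have h4 := hS.pos v h2
      rw [fixz, if_pos h4, n1_F1_pos hk h4.ne']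
      simp only [h2, h3, true_imp_iff, not_true_eq_false, not_false_eq_true, false_imp_iff,
        and_true, true_and]
      exact and_comm
  · obtain ⟨h2, h3⟩ := hS.flat v hk
    rw [n1_F1_flat hk (hS.nn v)]
    simp only [h2, h3, true_imp_iff, not_true_eq_false, not_false_eq_true, false_imp_iff,
      and_true, true_and]

theorem Cyc.form_FF [NeZero q] (h : Cyc q s1 s2 ξ1 ξ2 c s κ ζ a kr T R S S')
    {E1 E2 : Iq q → Iq q → ℚ} (hk1 : KForm q ξ1 E1) (hk2 : KForm q ξ2 E2)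
    (w w' : Iq q ⊕ Iq q → ℂ) : Eb (pb (dsum E1 E2) (QM R S S' (FF c κ β))) w w' =
      ∑ v : Pq q s1, e1 (a v * (1 - kr v * ‖s v β‖ ^ 2)) (kr v) (tp q v w) (tp q v w') := by
  rw [Eb_pb', h.form hk1 hk2]
  refine Finset.sum_congr rfl fun v _ => ?_
  simp only [h.tp_QM, FF_map c (s v) (h.ari.hcj v) κ (kr v) (h.ari.hkr v), e1_F1]

theorem Cyc.sec [NeZero q] [Nonempty (Pq q s1)] (h : Cyc q s1 s2 ξ1 ξ2 c s κ ζ a kr T R S S')
    (hS : Sec q s1 t1 t2 s kr β) {E1 E2 : Iq q → Iq q → ℚ} (hk1 : KForm q ξ1 E1)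
    (hk2 : KForm q ξ2 E2) (hx : xf s kr β ∈ XX kr) :
    ∃ (M M' : Iq q ⊕ Iq q → Iq q ⊕ Iq q → ℚ) (ξ3 ξ4 : Polynomial ℚ)
      (E3 E4 : Iq q → Iq q → ℚ), Inv2 M M' ∧ AlgAct q M ∧ KForm q ξ3 E3 ∧ KForm q ξ4 E4 ∧
      Pol E3 (Ns q t1) ∧ Pol E4 (Ns q t2) ∧ pb (dsum E1 E2) M = dsum E3 E4 ∧
      ∀ w, w ∈ Np (Ns q t1) (Ns q t2) ↔ Pool.Agent.Helper49.SH.mv S'
        (Pool.Agent.Helper49.SH.mv M w) ∈ Pool.Agent.Helper96.SH.NZ (ZX T kr (xf s kr β)) := by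
  have hdet : (FF c κ β).det ≠ 0 := by
    obtain ⟨v⟩ := ‹Nonempty (Pq q s1)›
    intro h0
    have h1 := congrArg (s v) h0
    rw [Matrix.det_fin_two, map_sub, map_mul, map_mul, map_zero] at h1
    simp only [FF, Matrix.of_apply, Matrix.cons_val', Matrix.cons_val_zero, Matrix.cons_val_one,
      Matrix.cons_val_fin_one, map_one, map_mul, h.ari.hcj, h.ari.hkr] at h1
    have h2 := nn_eq (kr v) (s v β)
    have h3 : ((1 - kr v * ‖s v β‖ ^ 2 : ℝ) : ℂ) = 0 := by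
      rw [h2]
      linear_combination h1
    exact hS.nn v (by exact_mod_cast h3)
  have hinv : FF c κ β * (FF c κ β)⁻¹ = 1 := Matrix.mul_nonsing_inv _ (isUnit_iff_ne_zero.2 hdet)
  obtain ⟨ξ3, h3⟩ := h.gen (Polynomial.aeval ζ ξ1 * (1 - κ * (β * c β)))
  obtain ⟨ξ4, h4⟩ := h.gen (-κ * (Polynomial.aeval ζ ξ1 * (1 - κ * (β * c β))))
  have hv3 : ∀ v : Pq q s1, Polynomial.aeval (zt q ^ (v : ℕ)) ξ3 =
      I * ((a v * (1 - kr v * ‖s v β‖ ^ 2) : ℝ) : ℂ) := by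
    intro v
    rw [h.val, ← h3, Complex.ofReal_mul, nn_eq]
    simp only [map_mul, map_sub, map_one, h.x1, h.ari.hcj, h.ari.hkr]
    ring
  have hv4 : ∀ v : Pq q s1, Polynomial.aeval (zt q ^ (v : ℕ)) ξ4 =
      I * ((-(kr v * (a v * (1 - kr v * ‖s v β‖ ^ 2))) : ℝ) : ℂ) := by
    intro v
    rw [h.val, ← h4, Complex.ofReal_neg, Complex.ofReal_mul, Complex.ofReal_mul, nn_eq]
    simp only [map_mul, map_sub, map_one, map_neg, h.x1, h.ari.hcj, h.ari.hkr]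
    ring
  obtain ⟨G, hG⟩ : ∃ G, G = pb (dsum E1 E2) (QM R S S' (FF c κ β)) := ⟨_, rfl⟩
  have hGf : ∀ w w', Eb G w w' = ∑ v : Pq q s1, e1 (a v * (1 - kr v * ‖s v β‖ ^ 2)) (kr v)
      (tp q v w) (tp q v w') := by
    intro w w'
    rw [hG]
    exact h.form_FF hk1 hk2 w w'
  have hd : G = dsum (fun i j => G (Sum.inl i) (Sum.inl j)) (fun i j => G (Sum.inr i) (Sum.inr j)) := by
    refine dsum_of (fun w w' => ?_) (fun w w' => ?_)
    · rw [hGf]
      refine Finset.sum_eq_zero fun v _ => ?_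
      rw [tp_jl', tp_jr']
      simp [e1]
    · rw [hGf]
      refine Finset.sum_eq_zero fun v _ => ?_
      rw [tp_jl', tp_jr']
      simp [e1]
  obtain ⟨E3, hE3⟩ : ∃ E3 : Iq q → Iq q → ℚ, E3 = fun i j => G (Sum.inl i) (Sum.inl j) := ⟨_, rfl⟩
  obtain ⟨E4, hE4⟩ : ∃ E4 : Iq q → Iq q → ℚ, E4 = fun i j => G (Sum.inr i) (Sum.inr j) := ⟨_, rfl⟩
  rw [← hE3, ← hE4] at hd
  have hK3 : KForm q ξ3 E3 := by
    intro w w'
    rw [kform_sum h.hs1 hv3, ← Eb_dsum_jl E3 E4, ← hd, hGf]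
    refine Finset.sum_congr rfl fun v _ => ?_
    rw [tp_jl', tp_jl']
    simp only [e1, mul_zero, sub_zero]
  have hK4 : KForm q ξ4 E4 := by
    intro w w'
    rw [kform_sum h.hs1 hv4, ← Eb_dsum_jr E3 E4, ← hd, hGf]
    refine Finset.sum_congr rfl fun v _ => ?_
    rw [tp_jr', tp_jr']
    simp only [e1]
    push_cast
    ring
  have hval : ∀ (ξ : Polynomial ℚ) (α : Pq q s1 → ℝ), (∀ v : Pq q s1,
      Polynomial.aeval (zt q ^ (v : ℕ)) ξ = I * ((α v : ℝ) : ℂ)) → ∀ v : Pq q s1,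
      Polynomial.aeval (zt q ^ (q - (v : ℕ))) ξ = I * ((-α v : ℝ) : ℂ) := by
    intro ξ α hα v
    rw [val_conj (uu_bounds h.hs1.three (pq_mem v).1).2.1.le, hα, map_mul, Complex.conj_I,
      Complex.conj_ofReal]
    push_cast
    ring
  have hP3 : Pol E3 (Ns q t1) := by
    refine pol_of_sign hS.ht1 hK3 fun u hu hut => ?_
    rcases place_cases h.hs1 hu with ⟨v, hv⟩ | ⟨v, hv⟩
    · subst hv
      exact ⟨_, mul_pos (h.ari.ha v) (hS.pos v hut), hv3 v⟩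
    · subst hv
      have h5 : (v : ℕ) ∈ t1 := (hs_iff hS.ht1 (pq_mem v).1).2 hut
      refine ⟨_, ?_, hval ξ3 _ hv3 v⟩
      have h6 := hS.neg v h5
      have h7 := h.ari.ha v
      nlinarith
  have hP4 : Pol E4 (Ns q t2) := by
    refine pol_of_sign hS.ht2 hK4 fun u hu hut => ?_
    rcases place_cases h.hs1 hu with ⟨v, hv⟩ | ⟨v, hv⟩
    · subst hv
      refine ⟨_, ?_, hv4 v⟩
      have h7 := h.ari.ha v
      by_cases hk : 0 < kr v
      · have h8 := hS.neg v ((hS.one v hk).2 hut)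
        have h9 := mul_pos hk (mul_pos h7 (neg_pos.2 h8))
        nlinarith
      · have h8 := hS.pos v (hS.flat v hk).1
        have h10 : kr v < 0 := lt_of_le_of_ne (not_lt.1 hk) (h.ari.hk0 v)
        have h9 := mul_pos (neg_pos.2 h10) (mul_pos h7 h8)
        nlinarith
    · subst hv
      have h5 : (v : ℕ) ∈ t2 := (hs_iff hS.ht2 (pq_mem v).1).2 hut
      refine ⟨_, ?_, hval ξ4 _ hv4 v⟩
      have h7 := h.ari.ha v
      have hk : 0 < kr v := by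
        by_contra hk
        exact (hS.flat v hk).2 h5
      have h8 := hS.pos v (fun h9 => (hS.one v hk).1 h9 h5)
      have h9 := mul_pos hk (mul_pos h7 h8)
      linarith
  refine ⟨QM R S S' (FF c κ β), QM R S S' (FF c κ β)⁻¹, ξ3, ξ4, E3, E4, h.QM_inv hinv,
    h.algAct hdet, hK3, hK4, hP3, hP4, ?_, fun w => h.mem_sec hS w hx⟩
  rw [← hG]
  exact hd

end Pool.Agent.Helper94.SX
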