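import Pool.Agent.Helper94.SX.Xg

/-!
PROJECT SH / ALLQ (MP_274814_nt), block X: the structure XD from the cyclotomic data.
-/

set_option autoImplicit false

namespace Pool.Agent.Helper94.SX

open Complex Set NumberField Pool.Agent.Helper94.SH
open Pool.Agent.Helper49.SH (Iq Ns KForm IsEps Eb dsum pb Np Pol jl jr Inv2 AlgAct XD)
open Pool.Agent.Helper34.LT (zt)
open Pool.Agent.Helper34.LU (UU mem_UU)
open LTG (HS)

variable {K : Type} [Field K] [NumberField K]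

variable {q : ℕ} {s1 s2 : Finset ℕ} {ξ1 ξ2 : Polynomial ℚ} {c : K →+* K}
  {s : Pq q s1 → K →+* ℂ} {κ : K} {ζ : K} {a kr : Pq q s1 → ℝ}
  {T : (MM (Pq q s1) → ℂ) ≃ₗ[ℂ] (Pq q s1 → PC)}
  {R : Matrix (Fin 2) (Fin 2) K → Matrix (MM (Pq q s1)) (MM (Pq q s1)) ℚ}
  {S : Iq q ⊕ Iq q → MM (Pq q s1) → ℚ} {S' : MM (Pq q s1) → Iq q ⊕ Iq q → ℚ}
  {t1 t2 : Finset ℕ} {β : K}

theorem Cyc.rot (h : Cyc q s1 s2 ξ1 ξ2 c s κ ζ a kr T R S S') (hS : Sec q s1 t1 t2 s kr β) :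
    Rot c s κ kr β ζ where
  hz v := by
    have h3 := h.hs1.three
    rw [h.zeta, norm_pow, (Pool.Agent.Helper44.LT.zt_prim q (by omega)).norm'_eq_one (by omega),
      one_pow]
  hz1 v := by
    have h3 := h.hs1.three
    obtain ⟨h4, h5, h6, h7, h8, h9⟩ := uu_bounds h3 (pq_mem v).1
    rw [h.zeta]
    exact (Pool.Agent.Helper44.LT.zt_prim q (by omega)).pow_ne_one_of_pos_of_lt (by omega) h5
  hb v := hS.nn v

theorem Cyc.exists_sec (h : Cyc q s1 s2 ξ1 ξ2 c s κ ζ a kr T R S S') [Nonempty (Pq q s1)]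
    (ht1 : HS q t1) (ht2 : HS q t2) (hi : s1 ∩ s2 = t1 ∩ t2) (hu : s1 ∪ s2 = t1 ∪ t2) :
    ∃ β : K, Sec q s1 t1 t2 s kr β := by
  obtain ⟨β, hβ⟩ := exists_signs s (Pool.Agent.Helper75.SH.denseRange_K s h.ari.hs h.ari.hcard) kr
    (fun v => (v : ℕ) ∉ t1)
  have hk : ∀ v : Pq q s1, 0 < kr v ↔ (v : ℕ) ∈ t1 ∪ t2 := by
    intro v
    rw [← h.sgn, ← hu, Finset.mem_union]
    constructor
    · exact fun h1 => Or.inr h1
    · rintro (h1 | h1)
      · exact absurd h1 (pq_mem v).2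
      · exact h1
  refine ⟨β, ht1, ht2, fun v hv => (hβ v).1 hv, fun v hv => (hβ v).2 (by simpa using hv)
    ((hk v).2 (Finset.mem_union_left _ hv)), fun v hv => ?_, fun v hv => ?_⟩
  · rw [hk, Finset.mem_union, not_or] at hv
    exact hv
  · have h1 := (hk v).1 hv
    have h2 : (v : ℕ) ∉ t1 ∩ t2 := by
      rw [← hi, Finset.mem_inter]
      exact fun h3 => (pq_mem v).2 h3.1
    rw [Finset.mem_union] at h1
    rw [Finset.mem_inter] at h2
    tauto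

theorem Cyc.xd [NeZero q] (h : Cyc q s1 s2 ξ1 ξ2 c s κ ζ a kr T R S S')
    {E1 E2 : Iq q → Iq q → ℚ} (hk1 : KForm q ξ1 E1) (hk2 : KForm q ξ2 E2)
    (hne : (s1 ∩ s2).Nonempty)
    (ht1 : HS q t1) (ht2 : HS q t2) (hi : s1 ∩ s2 = t1 ∩ t2) (hu : s1 ∪ s2 = t1 ∪ t2) :
    Nonempty (XD q s1 s2 t1 t2 E1 E2) := by
  haveI : Nonempty (Pq q s1) := by
    obtain ⟨u, hu⟩ := hne
    have hu1 := (Finset.mem_inter.1 hu).1
    have huu := hs_uu h.hs1 hu1
    exact ⟨⟨q - u, Finset.mem_sdiff.2 ⟨(uu_bounds h.hs1.three huu).2.2.2.1, (hs_iff h.hs1 huu).1 hu1⟩⟩⟩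
  obtain ⟨β, hS⟩ := h.exists_sec ht1 ht2 hi hu
  have hr := h.rot hS
  have hdu : IsUnit (dg c κ β ζ).det := isUnit_iff_ne_zero.2 (h.ari.det_dg hr)
  exact ⟨{
    μ := Pq q s1 × Fin 2
    fμ := inferInstance
    dμ := inferInstance
    ν := Pl kr
    fν := inferInstance
    X := XX kr
    Z := ZX T kr
    op := XX_open kr
    conn := (XX_convex kr).isPreconnected
    hol := ZX_hol h.ari.ha h.ari.hk0 h.ari.coo
    sieg := fun x hx => (frm h.ari.ha h.ari.hk0 h.ari.coo hx).sieg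
    S := S
    S' := S'
    inv := ⟨h.inv1, h.inv2⟩
    form := h.form' hk1 hk2
    x1 := xf s kr β
    x1m := hr.mem
    g := mx fun v => (dg c κ β ζ).map (s v)
    gX := fun x hx => mx_mem (h.ari.isU_dg hr) hx
    gd := diff_mx (h.ari.isU_dg hr)
    g1 := h.ari.fix hr
    gi := h.ari.fix_fderiv hr
    R := R (dg c κ β ζ)
    R' := R (dg c κ β ζ)⁻¹
    RR := by rw [← h.ari.mul_eq, Matrix.mul_nonsing_inv _ hdu, h.ari.one_eq]
    RE := h.ari.En_act (h.ari.isU_dg hr)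
    RN := fun x hx e => h.ari.mem_act (h.ari.isU_dg hr) (h.ari.det_dg hr) hx e
    κ := Pq q s1 × Fin 2
    fr := fun k x => fr T kr x k
    frd := fun k => (diff_fr k).differentiableAt
    frN := fun k x hx => fr_mem h.ari.ha h.ari.hk0 h.ari.coo hx k
    frI := fun v hv => imm h.ari.ha h.ari.hk0 h.ari.coo hr.mem v hv
    cpt := fun u hu ε hε => by
      obtain ⟨v0, hv0, h1, h2⟩ := h.plane hu hε
      rw [h1, h2]
      exact h.ari.cpt v0 hv0
    O := {x | ∃ b : K × K, nrd c κ b = 1 ∧ x = xb s kr b}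
    OX := by
      rintro x ⟨b, hb, rfl⟩
      exact h.ari.xb_mem hb
    Od := h.ari.dense
    Og := by
      rintro x ⟨b, hb, rfl⟩
      exact ⟨_, (h.ari.orbit hr hb).1, (h.ari.orbit hr hb).2⟩
    Oa := by
      rintro x ⟨b, hb, rfl⟩
      exact h.orbit hk1 hk2 hb
    xa := h.sec hS hk1 hk2 hr.mem }⟩

end Pool.Agent.Helper94.SX
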