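import Pool.Agent.Helper94.SX.Xi
import Pool.Agent.Helper16.SH.Kd

/-!
PROJECT SH / ALLQ (MP_274814_nt), block X: the structure XD of Helper16/SH/Kd.lean.
-/

set_option autoImplicit false

namespace Pool.Agent.Helper94.SX

open Complex Set NumberField Pool.Agent.Helper94.SH
open Pool.Agent.Helper49.SH (Iq Ns KForm IsEps Eb dsum pb Np Pol jl jr Inv2 AlgAct)
open Pool.Agent.Helper34.LT (zt)
open Pool.Agent.Helper34.LU (UU mem_UU)
open Pool.Agent.Helper16.SH (EQ RIso Plane)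
open LTG (HS)

variable {K : Type} [Field K] [NumberField K]

variable {q : ℕ} {s1 s2 : Finset ℕ} {ξ1 ξ2 : Polynomial ℚ} {c : K →+* K}
  {s : Pq q s1 → K →+* ℂ} {κ : K} {ζ : K} {a kr : Pq q s1 → ℝ}
  {T : (MM (Pq q s1) → ℂ) ≃ₗ[ℂ] (Pq q s1 → PC)}
  {R : Matrix (Fin 2) (Fin 2) K → Matrix (MM (Pq q s1)) (MM (Pq q s1)) ℚ}
  {S : Iq q ⊕ Iq q → MM (Pq q s1) → ℚ} {S' : MM (Pq q s1) → Iq q ⊕ Iq q → ℚ}
  {t1 t2 : Finset ℕ} {β : K}

/-- the action on the plane number `u` is through one embedding -/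
theorem Cyc.plane_act (h : Cyc q s1 s2 ξ1 ξ2 c s κ ζ a kr T R S S') {u : ℕ} (hu : u ∈ UU q)
    {ε : Iq q → ℂ} (hε : IsEps q u ε) : ∃ φ : K →+* ℂ, ∀ M : Matrix (Fin 2) (Fin 2) K,
      Pool.Agent.Helper49.SH.mv (QM R S S' M) (jl ε) = φ (M 0 0) • jl ε + φ (M 1 0) • jr ε ∧
      Pool.Agent.Helper49.SH.mv (QM R S S' M) (jr ε) = φ (M 0 1) • jl ε + φ (M 1 1) • jr ε := by
  rcases place_cases h.hs1 hu with ⟨v0, hv0⟩ | ⟨v0, hv0⟩
  · refine ⟨s v0, fun M => ⟨?_, ?_⟩⟩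
    · refine h.ext fun v => ?_
      rw [h.tp_QM, tp_add, tp_smul, tp_smul, tp_jl h.hs1 hε, tp_jr h.hs1 hε]
      have hne : ¬ q - (v : ℕ) = u := by
        obtain ⟨h3, h4, h5, h6, h7, h8⟩ := uu_bounds h.hs1.three (pq_mem v).1
        intro h9
        rw [hv0] at h9
        have h10 := (hs_iff h.hs1 (pq_mem v).1).not.1 (pq_mem v).2
        rw [not_not, h9] at h10
        exact (pq_mem v0).2 h10
      by_cases hv : (v : ℕ) = u
      · have hvv : v = v0 := Subtype.ext (hv.trans hv0)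
        subst hvv
        rw [if_pos hv, if_neg hne]
        simp [a1, act]
      · simp [a1, act, hv, hne]
    · refine h.ext fun v => ?_
      rw [h.tp_QM, tp_add, tp_smul, tp_smul, tp_jl h.hs1 hε, tp_jr h.hs1 hε]
      have hne : ¬ q - (v : ℕ) = u := by
        obtain ⟨h3, h4, h5, h6, h7, h8⟩ := uu_bounds h.hs1.three (pq_mem v).1
        intro h9
        rw [hv0] at h9
        have h10 := (hs_iff h.hs1 (pq_mem v).1).not.1 (pq_mem v).2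
        rw [not_not, h9] at h10
        exact (pq_mem v0).2 h10
      by_cases hv : (v : ℕ) = u
      · have hvv : v = v0 := Subtype.ext (hv.trans hv0)
        subst hvv
        rw [if_pos hv, if_neg hne]
        simp [a1, act]
      · simp [a1, act, hv, hne]
  · have hq0 := (uu_bounds h.hs1.three (pq_mem v0).1)
    have hu1 : u ∈ s1 := by
      have h10 := (hs_iff h.hs1 (pq_mem v0).1).not.1 (pq_mem v0).2
      rw [not_not] at h10
      rw [hv0]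
      exact h10
    refine ⟨cc.comp (s v0), fun M => ⟨?_, ?_⟩⟩
    · refine h.ext fun v => ?_
      rw [h.tp_QM, tp_add, tp_smul, tp_smul, tp_jl h.hs1 hε, tp_jr h.hs1 hε]
      have hne : ¬ (v : ℕ) = u := fun h9 => (pq_mem v).2 (h9 ▸ hu1)
      by_cases hv : q - (v : ℕ) = u
      · have hvv : v = v0 := by
          refine Subtype.ext ?_
          have h3 := (uu_bounds h.hs1.three (pq_mem v).1)
          omega
        subst hvv
        simp [a1, act, hv, hne]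
      · simp [a1, act, hv, hne]
    · refine h.ext fun v => ?_
      rw [h.tp_QM, tp_add, tp_smul, tp_smul, tp_jl h.hs1 hε, tp_jr h.hs1 hε]
      have hne : ¬ (v : ℕ) = u := fun h9 => (pq_mem v).2 (h9 ▸ hu1)
      by_cases hv : q - (v : ℕ) = u
      · have hvv : v = v0 := by
          refine Subtype.ext ?_
          have h3 := (uu_bounds h.hs1.three (pq_mem v).1)
          omega
        subst hvv
        simp [a1, act, hv, hne]
      · simp [a1, act, hv, hne]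

theorem Eb_EQ {μ : Type} [Fintype μ] (E : Matrix μ μ ℤ) (w w' : μ → ℂ) :
    Eb (EQ E) w w' = Pool.Agent.Helper16.SH.En E w w' := by
  unfold Eb EQ Pool.Agent.Helper16.SH.En Pool.Agent.Helper96.SH.bl
  refine Finset.sum_congr rfl fun i _ => Finset.sum_congr rfl fun j _ => ?_
  push_cast
  ring

theorem mv_smul' {ι ι' : Type} [Fintype ι] [Fintype ι'] (M : ι → ι' → ℚ) (t : ℂ) (w : ι' → ℂ) :
    Pool.Agent.Helper49.SH.mv M (t • w) = t • Pool.Agent.Helper49.SH.mv M w :=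
  (Pool.Agent.Helper49.SH.mvL M).map_smul t w

/-- from an isomorphism in the coordinates of the field to `RIso` -/
theorem Cyc.riso [NeZero q] (h : Cyc q s1 s2 ξ1 ξ2 c s κ ζ a kr T R S S')
    {E1 E2 : Iq q → Iq q → ℚ} (hk1 : KForm q ξ1 E1) (hk2 : KForm q ξ2 E2)
    {A A' G : Iq q ⊕ Iq q → Iq q ⊕ Iq q → ℚ} (hA : Inv2 A A') (hG : pb (dsum E1 E2) A = G)
    (N : Submodule ℂ (MM (Pq q s1) → ℂ)) (N' : Submodule ℂ (Iq q ⊕ Iq q → ℂ))
    (hN : ∀ w, w ∈ N' ↔ Pool.Agent.Helper49.SH.mv S' (Pool.Agent.Helper49.SH.mv A w) ∈ N) :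
    RIso (EQ (Pool.Agent.Helper96.SH.E0 (Pq q s1 × Fin 2))) N G N' (mc S' A) (mc A' S) where
  inv1 w := by
    rw [mv_mc, mv_mc, hA.1, h.inv2]
  inv2 w := by
    rw [mv_mc, mv_mc, h.inv1, hA.2]
  form w w' := by
    rw [Eb_EQ, mv_mc, mv_mc, ← h.form' hk1 hk2, h.inv1, h.inv1, ← hG, Eb_pb']
  map e := by
    rw [mv_mc]
    exact (hN e).symm

theorem plane_of {A : Iq q ⊕ Iq q → Iq q ⊕ Iq q → ℚ} {μ : Type} [Fintype μ]
    {S' : μ → Iq q ⊕ Iq q → ℚ} {ε : Iq q → ℂ} {m00 m01 m10 m11 : ℂ}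
    (h00 : IsAlgebraic ℚ m00) (h01 : IsAlgebraic ℚ m01) (h10 : IsAlgebraic ℚ m10)
    (h11 : IsAlgebraic ℚ m11) (hd : m00 * m11 - m01 * m10 ≠ 0)
    (h1 : Pool.Agent.Helper49.SH.mv A (jl ε) = m00 • jl ε + m10 • jr ε)
    (h2 : Pool.Agent.Helper49.SH.mv A (jr ε) = m01 • jl ε + m11 • jr ε) (one : Prop)
    (hone : one → m00 * m11 - m01 * m10 = 1) :
    ∃ a b c d : ℂ, IsAlgebraic ℚ a ∧ IsAlgebraic ℚ b ∧ IsAlgebraic ℚ c ∧
    IsAlgebraic ℚ d ∧ a * d - b * c ≠ 0 ∧ (one → a * d - b * c = 1) ∧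
    Pool.Agent.Helper49.SH.mv S' (Sum.elim ε 0) = a • Pool.Agent.Helper49.SH.mv (mc S' A) (Sum.elim ε 0) +
      b • Pool.Agent.Helper49.SH.mv (mc S' A) (Sum.elim 0 ε) ∧
    Pool.Agent.Helper49.SH.mv S' (Sum.elim 0 ε) = c • Pool.Agent.Helper49.SH.mv (mc S' A) (Sum.elim ε 0) +
      d • Pool.Agent.Helper49.SH.mv (mc S' A) (Sum.elim 0 ε) := by
  obtain ⟨δ, hδ⟩ : ∃ δ, δ = m00 * m11 - m01 * m10 := ⟨_, rfl⟩
  rw [← hδ] at hd hone
  have hδa : IsAlgebraic ℚ δ⁻¹ := by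
    rw [hδ]
    exact ((h00.mul h11).sub (h01.mul h10)).inv
  refine ⟨δ⁻¹ * m11, -(δ⁻¹ * m10), -(δ⁻¹ * m01), δ⁻¹ * m00, hδa.mul h11, (hδa.mul h10).neg,
    (hδa.mul h01).neg, hδa.mul h00, ?_, ?_, ?_, ?_⟩
  · have h3 : δ⁻¹ * m11 * (δ⁻¹ * m00) - -(δ⁻¹ * m10) * -(δ⁻¹ * m01) = δ⁻¹ := by
      field_simp
      rw [hδ]
      ring
    rw [h3]
    exact inv_ne_zero hd
  · intro h3
    have h4 := hone h3
    rw [h4, inv_one]
    rw [h4] at hδ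
    linear_combination -hδ
  · have h3 : (Sum.elim ε 0 : Iq q ⊕ Iq q → ℂ) = jl ε := rfl
    have h4 : (Sum.elim 0 ε : Iq q ⊕ Iq q → ℂ) = jr ε := rfl
    rw [h3, h4, mv_mc, mv_mc, h1, h2, ← mv_smul', ← mv_smul', ← mv_add']
    congr 1
    have h5 : (δ⁻¹ * m11) • (m00 • jl ε + m10 • jr ε) + (-(δ⁻¹ * m10)) • (m01 • jl ε + m11 • jr ε) =
        (δ⁻¹ * (m00 * m11 - m01 * m10)) • (jl ε : Iq q ⊕ Iq q → ℂ) := by module
    rw [h5, ← hδ, inv_mul_cancel₀ hd, one_smul]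
  · have h3 : (Sum.elim ε 0 : Iq q ⊕ Iq q → ℂ) = jl ε := rfl
    have h4 : (Sum.elim 0 ε : Iq q ⊕ Iq q → ℂ) = jr ε := rfl
    rw [h3, h4, mv_mc, mv_mc, h1, h2, ← mv_smul', ← mv_smul', ← mv_add']
    congr 1
    have h5 : (-(δ⁻¹ * m01)) • (m00 • jl ε + m10 • jr ε) + (δ⁻¹ * m00) • (m01 • jl ε + m11 • jr ε) =
        (δ⁻¹ * (m00 * m11 - m01 * m10)) • (jr ε : Iq q ⊕ Iq q → ℂ) := by module
    rw [h5, ← hδ, inv_mul_cancel₀ hd, one_smul]

theorem Cyc.orb16 [NeZero q] (h : Cyc q s1 s2 ξ1 ξ2 c s κ ζ a kr T R S S')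
    {E1 E2 : Iq q → Iq q → ℚ} (hk1 : KForm q ξ1 E1) (hk2 : KForm q ξ2 E2) {b : K × K}
    (hb : nrd c κ b = 1) :
    ∃ M M', RIso (EQ (Pool.Agent.Helper96.SH.E0 (Pq q s1 × Fin 2)))
      (Pool.Agent.Helper96.SH.NZ (ZX T kr (xb s kr b))) (dsum E1 E2) (Np (Ns q s1) (Ns q s2)) M M' ∧
      ∀ u ∈ s1 ∩ s2, Plane q u S' M True := by
  obtain ⟨B, hB⟩ : ∃ B, B = gam c κ (c b.1, -b.2) := ⟨_, rfl⟩
  have hgB : gam c κ b * B = 1 := by
    rw [hB]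
    exact gam_inv c κ h.ari.hcj2 h.ari.hκ hb
  have hBg : B * gam c κ b = 1 := mul_eq_one_comm.1 hgB
  have hgU := h.ari.isU_gam hb
  have hgd : (gam c κ b).det ≠ 0 := by
    rw [det_gam, hb]
    exact one_ne_zero
  refine ⟨mc S' (QM R S S' (gam c κ b)), mc (QM R S S' B) S,
    h.riso hk1 hk2 (h.QM_inv hgB) (h.pb_act hk1 hk2 hgU) _ _ fun w => ?_, fun u hu ε hε => ?_⟩
  · have h1 := h.ari.mem_act hgU hgd zero_mem_XX (Pool.Agent.Helper49.SH.mv S' w)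
    rw [← h.ari.xb_eq hb] at h1
    rw [mv_QM, h.inv2, ← h1, mem_NX h.ari.ha h.ari.hk0 h.ari.coo zero_mem_XX, h.mem_np]
    refine forall_congr' fun v => ?_
    have h2 : xt (0 : Pl kr → ℂ) v = 0 := by
      unfold xt
      split_ifs <;> rfl
    rw [h2, h.coord, h.inv1]
  · obtain ⟨φ, hφ⟩ := h.plane_act (hs_uu h.hs1 (Finset.mem_inter.1 hu).1) hε
    obtain ⟨h1, h2⟩ := hφ (gam c κ b)
    have hdet : φ (gam c κ b 0 0) * φ (gam c κ b 1 1) - φ (gam c κ b 0 1) * φ (gam c κ b 1 0) = 1 := by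
      rw [← map_mul, ← map_mul, ← map_sub, ← Matrix.det_fin_two, det_gam, hb, map_one]
    exact plane_of (alg_s _ _) (alg_s _ _) (alg_s _ _) (alg_s _ _) (by rw [hdet]; exact one_ne_zero)
      h1 h2 True fun _ => hdet

theorem Cyc.xd16 [NeZero q] (h : Cyc q s1 s2 ξ1 ξ2 c s κ ζ a kr T R S S')
    {E1 E2 : Iq q → Iq q → ℚ} (hk1 : KForm q ξ1 E1) (hk2 : KForm q ξ2 E2)
    (hne : (s1 ∩ s2).Nonempty)
    (ht1 : HS q t1) (ht2 : HS q t2) (hi : s1 ∩ s2 = t1 ∩ t2) (hu : s1 ∪ s2 = t1 ∪ t2) :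
    Nonempty (Pool.Agent.Helper16.SH.XD q s1 s2 t1 t2 E1 E2) := by
  haveI : Nonempty (Pq q s1) := by
    obtain ⟨u, hu⟩ := hne
    have hu1 := (Finset.mem_inter.1 hu).1
    have huu := hs_uu h.hs1 hu1
    exact ⟨⟨q - u, Finset.mem_sdiff.2 ⟨(uu_bounds h.hs1.three huu).2.2.2.1, (hs_iff h.hs1 huu).1 hu1⟩⟩⟩
  obtain ⟨β, hS⟩ := h.exists_sec ht1 ht2 hi hu
  have hr := h.rot hS
  have hdu : IsUnit (dg c κ β ζ).det := isUnit_iff_ne_zero.2 (h.ari.det_dg hr)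
  obtain ⟨M, M', ξ3, ξ4, E3, E4, hM, hMa, hk3, hk4, hp3, hp4, hpb, hmem⟩ := h.sec hS hk1 hk2 hr.mem
  exact ⟨{
    μ := Pq q s1 × Fin 2
    fμ := inferInstance
    dμ := inferInstance
    ν := Pl kr
    fν := inferInstance
    X := XX kr
    Z := ZX T kr
    op := XX_open kr
    conn := (XX_convex kr).isPreconnected
    hol := ZX_hol h.ari.ha h.ari.hk0 h.ari.coo
    sieg := fun x hx => (frm h.ari.ha h.ari.hk0 h.ari.coo hx).sieg
    S := S'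
    cpt := fun u hu ε hε => by
      obtain ⟨v0, hv0, h1, h2⟩ := h.plane hu hε
      have h3 : (Sum.elim ε 0 : Iq q ⊕ Iq q → ℂ) = jl ε := rfl
      have h4 : (Sum.elim 0 ε : Iq q ⊕ Iq q → ℂ) = jr ε := rfl
      rw [h3, h4, h1, h2]
      exact h.ari.cpt v0 hv0
    x1 := xf s kr β
    hx1 := hr.mem
    g := mx fun v => (dg c κ β ζ).map (s v)
    hg := fun x hx => mx_mem (h.ari.isU_dg hr) hx
    hgd := diff_mx (h.ari.isU_dg hr)
    hg1 := h.ari.fix hr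
    hg' := h.ari.fix_fderiv hr
    R := R (dg c κ β ζ)
    R' := R (dg c κ β ζ)⁻¹
    hR := by rw [← h.ari.mul_eq, Matrix.mul_nonsing_inv _ hdu, h.ari.one_eq]
    hRE := h.ari.En_act (h.ari.isU_dg hr)
    hRN := fun x hx e => h.ari.mem_act (h.ari.isU_dg hr) (h.ari.det_dg hr) hx e
    κ := Pq q s1 × Fin 2
    fr := fun k x => fr T kr x k
    hfr := fun k => (diff_fr k).differentiableAt
    hfrN := fun k x hx => fr_mem h.ari.ha h.ari.hk0 h.ari.coo hx k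
    himm := fun v hv => imm h.ari.ha h.ari.hk0 h.ari.coo hr.mem v hv
    O := {x | ∃ b : K × K, nrd c κ b = 1 ∧ x = xb s kr b}
    hOX := by
      rintro x ⟨b, hb, rfl⟩
      exact h.ari.xb_mem hb
    hO := h.ari.dense
    hOg := by
      rintro x ⟨b, hb, rfl⟩
      exact ⟨_, (h.ari.orbit hr hb).1, (h.ari.orbit hr hb).2⟩
    orb := by
      rintro x ⟨b, hb, rfl⟩
      exact h.orb16 hk1 hk2 hb
    ξ3 := ξ3
    ξ4 := ξ4
    E3 := E3
    E4 := E4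
    kf3 := hk3
    kf4 := hk4
    pol3 := hp3
    pol4 := hp4
    pt := ⟨mc S' M, mc M' S, h.riso hk1 hk2 hM hpb _ _ hmem, fun u hu ε hε => by
      obtain ⟨m00, m01, m10, m11, h00, h01, h10, h11, hd, h1, h2⟩ :=
        hMa u (hs_uu h.hs1 (Finset.mem_inter.1 hu).1) ε hε
      exact plane_of h00 h01 h10 h11 hd h1 h2 False fun h3 => h3.elim⟩ }⟩

/-- **Block X** in the form of Helper16/SH/Kd.lean. -/
theorem xmain16 (q : ℕ) (s1 s2 t1 t2 : Finset ℕ) (ξ1 ξ2 : Polynomial ℚ)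
    (E1 E2 : Iq q → Iq q → ℚ) (hs1 : HS q s1) (hs2 : HS q s2) (ht1 : HS q t1) (ht2 : HS q t2)
    (hk1 : KForm q ξ1 E1) (hk2 : KForm q ξ2 E2) (hp1 : Pol E1 (Ns q s1)) (hp2 : Pol E2 (Ns q s2))
    (hne : (s1 ∩ s2).Nonempty) (hi : s1 ∩ s2 = t1 ∩ t2) (hu : s1 ∪ s2 = t1 ∪ t2) :
    Nonempty (Pool.Agent.Helper16.SH.XD q s1 s2 t1 t2 E1 E2) := by
  haveI : NeZero q := ⟨by have := hs1.three; omega⟩
  obtain ⟨κ, a, kr, T, R, S, S', h⟩ := Pool.Agent.Helper75.SH.exists_Cyc q s1 s2 ξ1 ξ2 E1 E2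
    hs1 hs2 hk1 hk2 hp1 hp2
  exact h.xd16 hk1 hk2 hne ht1 ht2 hi hu

end Pool.Agent.Helper94.SX
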